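import Pool.Agent.Helper28.RS.Defs

/-! Rainbow saturation: completion to a saturated graph (MP_e4665f_co). -/

set_option autoImplicit false

namespace Pool.Agent.Helper3.RT

open SimpleGraph Pool.Agent.Helper28.RS

variable {k : ℕ} {H : SimpleGraph (Fin k)}

/-- a coloured graph without rainbow copy in which all missing edges outside `F` are saturated
extends to a saturated one by edges of `F` -/
theorem complete {V : Type*} [Fintype V] [DecidableEq V] {G : SimpleGraph V} {χ : Sym2 V → ℕ}
    (hfree : ¬ Rb H G χ) (F : Set (Sym2 V))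
    (hF : ∀ x y : V, x ≠ y → ¬ G.Adj x y → s(x, y) ∉ F → ∀ col : ℕ,
      Rb H (G ⊔ SimpleGraph.fromEdgeSet {s(x, y)}) (Function.update χ s(x, y) col)) :
    ∃ (G' : SimpleGraph V) (χ' : Sym2 V → ℕ), G'.edgeSet ⊆ G.edgeSet ∪ F ∧ Sat H G' χ' := by
  classical
  let S : Set ℕ := {m | ∃ (G' : SimpleGraph V) (χ' : Sym2 V → ℕ), G ≤ G' ∧
    (∀ e ∈ G.edgeSet, χ' e = χ e) ∧ G'.edgeSet ⊆ G.edgeSet ∪ F ∧ ¬ Rb H G' χ' ∧
    G'.edgeSet.ncard = m}
  have hb : ∀ m ∈ S, m ≤ Fintype.card (Sym2 V) := by
    rintro m ⟨G', χ', _, _, _, _, rfl⟩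
    rw [← Nat.card_eq_fintype_card, ← Set.ncard_univ]
    exact Set.ncard_le_ncard (Set.subset_univ _) (Set.toFinite _)
  have hne : S.Nonempty :=
    ⟨_, G, χ, le_rfl, fun _ _ => rfl, Set.subset_union_left, hfree, rfl⟩
  have hmem : sSup S ∈ S := Nat.sSup_mem hne ⟨_, hb⟩
  obtain ⟨G', χ', h1, h2, h3, h4, h5⟩ := hmem
  refine ⟨G', χ', h3, h4, ?_⟩
  intro x y hxy hadj col
  by_cases hFm : s(x, y) ∈ F
  · by_contra hcon
    have hG'' : s(x, y) ∉ G'.edgeSet := hadj
    have h6 : (G' ⊔ SimpleGraph.fromEdgeSet {s(x, y)}).edgeSet.ncard ∈ S := by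
      refine ⟨_, _, h1.trans le_sup_left, ?_, ?_, hcon, rfl⟩
      · intro e he
        rw [Function.update_of_ne]
        · exact h2 e he
        · rintro rfl
          exact hG'' (SimpleGraph.edgeSet_subset_edgeSet.2 h1 he)
      · intro e he
        rw [mem_edgeSet_sup_edge hxy] at he
        rcases he with he | he
        · exact h3 he
        · rw [he]
          exact Or.inr hFm
    have h7 := le_csSup ⟨_, hb⟩ h6
    have h8 : (G' ⊔ SimpleGraph.fromEdgeSet {s(x, y)}).edgeSet = insert s(x, y) G'.edgeSet := by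
      ext d
      rw [mem_edgeSet_sup_edge hxy, Set.mem_insert_iff, or_comm]
    rw [h8, Set.ncard_insert_of_notMem hG'' (Set.toFinite _), h5] at h7
    omega
  · have hadj' : ¬ G.Adj x y := fun h => hadj (h1 h)
    have h6 := hF x y hxy hadj' hFm col
    have hcol : ∀ d ∈ (G ⊔ SimpleGraph.fromEdgeSet {s(x, y)}).edgeSet,
        Function.update χ' s(x, y) col d = Function.update χ s(x, y) col d := by
      intro d hd
      by_cases hd2 : d = s(x, y)
      · rw [hd2, Function.update_self, Function.update_self]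
      · rw [Function.update_of_ne hd2, Function.update_of_ne hd2]
        rw [mem_edgeSet_sup_edge hxy] at hd
        rcases hd with hd | hd
        · exact h2 d hd
        · exact absurd hd hd2
    refine h6.transport id Function.injective_id ?_ ?_
    · intro a b hab
      rw [adj_sup_edge hxy] at hab ⊢
      rcases hab with hab | hab
      · exact Or.inl (h1 hab)
      · exact Or.inr hab
    · intro d₁ hd₁ d₂ hd₂ h
      rw [Sym2.map_id, id, id, hcol d₁ hd₁, hcol d₂ hd₂] at h
      exact h

end Pool.Agent.Helper3.RT
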