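import Pool.Agent.Helper3.RT.Free

/-! Rainbow saturation of graphs with a pendant path: edges at pendant vertices (MP_e4665f_co). -/

set_option autoImplicit false

namespace Pool.Agent.Helper3.RT

open SimpleGraph Pool.Agent.Helper28.RS

variable {k : ℕ}

namespace Pat

variable (P : Pat k)

/-- a convenient way to produce a rainbow copy which uses the new edge -/
theorem mkRb {m : ℕ} {x y : Fin m ⊕ Core k} (hxy : x ≠ y) {c : ℕ} {f : Fin k → Fin m ⊕ Core k}
    (hinj : Function.Injective f) {a0 b0 : Fin k} (ha : f a0 = x) (hb : f b0 = y)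
    (C : Sym2 (Fin k) → ℕ → Prop) (hC0 : C s(a0, b0) c)
    (hG : ∀ e ∈ P.H.edgeSet, e ≠ s(a0, b0) → ∃ a b, e = s(a, b) ∧ (P.G m).Adj (f a) (f b) ∧
      C e (P.vcol m (f a) (f b)))
    (hC : ∀ e e' n, C e n → C e' n → e = e') :
    Rb P.H (P.G m ⊔ fromEdgeSet {s(x, y)}) (Function.update (P.chi m) s(x, y) c) := by
  have hmap : ∀ e, e.map f = s(x, y) → e = s(a0, b0) := by
    intro e he
    have h1 : e.map f = Sym2.map f s(a0, b0) := by rw [he, Sym2.map_mk, ha, hb]
    exact Sym2.map.injective hinj h1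
  have key : ∀ e ∈ P.H.edgeSet, C e (Function.update (P.chi m) s(x, y) c (e.map f)) := by
    intro e he
    by_cases h1 : e = s(a0, b0)
    · have h2 : e.map f = s(x, y) := by rw [h1, Sym2.map_mk, ha, hb]
      rw [h2, Function.update_self, h1]
      exact hC0
    · rw [Function.update_of_ne (fun h2 => h1 (hmap e h2))]
      obtain ⟨a, b, h2, _, h3⟩ := hG e he h1
      rw [h2] at h3 ⊢
      exact h3
  refine ⟨f, hinj, ?_, ?_⟩
  · intro a b hab
    rw [adj_sup_edge hxy]
    by_cases h1 : s(a, b) = s(a0, b0)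
    · right
      rw [← Sym2.map_mk f a b, h1, Sym2.map_mk, ha, hb]
    · left
      obtain ⟨a', b', h2, h3, _⟩ := hG s(a, b) hab h1
      rw [Sym2.eq_iff] at h2
      rcases h2 with ⟨h2, h4⟩ | ⟨h2, h4⟩
      · rw [h2, h4]
        exact h3
      · rw [h2, h4]
        exact h3.symm
  · intro e he e' he' h
    have h1 := key e he
    rw [h] at h1
    exact hC _ _ _ h1 (key e' he')

theorem col_none (e : Sym2 (Fin k)) : P.col none e = if e = s(P.w, P.v) then 0 else beta e := by
  unfold col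
  by_cases h : e = s(P.w, P.v)
  · rw [if_pos (Or.inl h), if_pos h]
  · rw [if_neg, if_neg h]
    rintro (h1 | h1)
    · exact h h1
    · cases h1

theorem exists_j (c : ℕ) : ∃ j, ∀ e, e ≠ s(P.w, P.v) → P.col j e ≠ c := by
  by_cases h : ∃ e0 : Sym2 (Fin k), beta e0 = c
  · obtain ⟨e0, rfl⟩ := h
    refine ⟨some e0, fun e he h1 => ?_⟩
    unfold col at h1
    split_ifs at h1 with h2
    · exact beta_pos _ h1.symm
    · exact h2 (Or.inr (by rw [beta_inj h1]))
  · refine ⟨none, fun e he h1 => ?_⟩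
    rw [col_none, if_neg he] at h1
    exact h ⟨e, h1⟩

theorem col_inj {j : Option (Sym2 (Fin k))} {e e' : Sym2 (Fin k)} (he : e ≠ s(P.w, P.v))
    (he' : e' ≠ s(P.w, P.v)) (h : P.col j e = P.col j e') : e = e' := by
  unfold col at h
  split_ifs at h with h1 h2 h2
  · rcases h1 with h1 | h1
    · exact absurd h1 he
    · rcases h2 with h2 | h2
      · exact absurd h2 he'
      · rw [h1] at h2
        exact Option.some.inj h2
  · exact absurd h.symm (beta_pos _)
  · exact absurd h (beta_pos _)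
  · exact beta_inj h

theorem col_none_inj {e e' : Sym2 (Fin k)} (h : P.col none e = P.col none e') : e = e' := by
  rw [col_none, col_none] at h
  split_ifs at h with h1 h2 h2
  · rw [h1, h2]
  · exact absurd h.symm (beta_pos _)
  · exact absurd h (beta_pos _)
  · exact beta_inj h

theorem entcol_lt (j : Option (Sym2 (Fin k))) (y : Fin k) : P.entcol j y < big k := by
  classical
  unfold entcol
  split_ifs
  · exact P.col_lt _ _
  · unfold big
    omega

/-- the kinds of edges -/
theorem classify (hO : P.Ok) {e : Sym2 (Fin k)} (he : e ∈ P.H.edgeSet) :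
    e = s(P.w, P.v) ∨ e = s(P.v, P.l) ∨ (∃ x ∈ lf P.H P.w, e = s(P.w, x)) ∨
    (∃ y, P.isY y ∧ P.H.Adj P.w y ∧ e = s(P.w, y)) ∨
    (∃ y y', P.isY y ∧ P.isY y' ∧ P.H.Adj y y' ∧ e = s(y, y')) := by
  have key : ∀ a b, P.H.Adj a b → a = P.w ∨ a = P.v ∨ a = P.l ∨ a ∈ lf P.H P.w ∨ P.isY a := by
    intro a b _
    by_cases h1 : a = P.w
    · exact Or.inl h1
    · by_cases h2 : a = P.v
      · exact Or.inr (Or.inl h2)
      · by_cases h3 : a = P.l
        · exact Or.inr (Or.inr (Or.inl h3))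
        · by_cases h4 : a ∈ lf P.H P.w
          · exact Or.inr (Or.inr (Or.inr (Or.inl h4)))
          · exact Or.inr (Or.inr (Or.inr (Or.inr ⟨h1, h2, h3, h4⟩)))
  have wcase : ∀ b, P.H.Adj P.w b → s(P.w, b) = s(P.w, P.v) ∨ s(P.w, b) = s(P.v, P.l) ∨
      (∃ x ∈ lf P.H P.w, s(P.w, b) = s(P.w, x)) ∨
      (∃ y, P.isY y ∧ P.H.Adj P.w y ∧ s(P.w, b) = s(P.w, y)) ∨
      (∃ y y', P.isY y ∧ P.isY y' ∧ P.H.Adj y y' ∧ s(P.w, b) = s(y, y')) := by
    intro b hb
    rcases key b P.w hb.symm with h | h | h | h | h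
    · exact absurd h.symm hb.ne
    · rw [h]
      exact Or.inl rfl
    · rw [h] at hb
      exact absurd (hO.nl _ hb.symm) hO.adj_wv.ne
    · exact Or.inr (Or.inr (Or.inl ⟨b, h, rfl⟩))
    · exact Or.inr (Or.inr (Or.inr (Or.inl ⟨b, h, hb, rfl⟩)))
  have vcase : ∀ b, P.H.Adj P.v b → s(P.v, b) = s(P.w, P.v) ∨ s(P.v, b) = s(P.v, P.l) := by
    intro b hb
    rcases hO.nv b hb with h | h
    · rw [h, Sym2.eq_swap]
      exact Or.inl rfl
    · rw [h]
      exact Or.inr rfl
  have lcase : ∀ b, P.H.Adj P.l b → s(P.l, b) = s(P.v, P.l) := by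
    intro b hb
    rw [hO.nl b hb, Sym2.eq_swap]
  have lfcase : ∀ a b, a ∈ lf P.H P.w → P.H.Adj a b → s(a, b) = s(P.w, a) := by
    intro a b ha hab
    rw [mem_lf] at ha
    have : b = P.w := Fold.leaf_unique (by omega) hab ha.1.symm
    rw [this, Sym2.eq_swap]
  induction e using Sym2.ind with
  | h a b =>
    have hab : P.H.Adj a b := he
    rcases key a b hab with h | h | h | h | h
    · rw [h] at hab ⊢
      exact wcase b hab
    · rw [h] at hab ⊢
      rcases vcase b hab with h1 | h1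
      · exact Or.inl h1
      · exact Or.inr (Or.inl h1)
    · rw [h] at hab ⊢
      exact Or.inr (Or.inl (lcase b hab))
    · exact Or.inr (Or.inr (Or.inl ⟨a, h, lfcase a b h hab⟩))
    · rcases key b a hab.symm with h' | h' | h' | h' | h'
      · rw [h'] at hab ⊢
        rw [Sym2.eq_swap]
        exact wcase a hab.symm
      · rw [h'] at hab
        rcases hO.nv a hab.symm with h1 | h1
        · exact absurd h1 h.1
        · exact absurd h1 h.2.2.1
      · rw [h'] at hab
        exact absurd (hO.nl a hab.symm) h.2.1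
      · rw [Sym2.eq_swap]
        exact Or.inr (Or.inr (Or.inl ⟨b, h', lfcase b a h' hab.symm⟩))
      · exact Or.inr (Or.inr (Or.inr (Or.inr ⟨a, b, h, h', hab, rfl⟩)))

/-- the vertices of the blob -/
def cb (s : Finset (Option (Sym2 (Fin k)) × Fin k)) (j : Option (Sym2 (Fin k))) (r x : Fin k) :
    Core k := Core.cube (symmDiff s (symmDiff {(j, r)} {(j, x)}))

theorem cb_root (s : Finset (Option (Sym2 (Fin k)) × Fin k)) (j : Option (Sym2 (Fin k)))
    (r : Fin k) : cb s j r r = Core.cube s := by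
  unfold cb
  rw [symmDiff_self, symmDiff_bot]

theorem symm_pair (s : Finset (Option (Sym2 (Fin k)) × Fin k)) (j : Option (Sym2 (Fin k)))
    (r x y : Fin k) (h : x ≠ y) :
    symmDiff (symmDiff s (symmDiff {(j, r)} {(j, x)})) (symmDiff s (symmDiff {(j, r)} {(j, y)})) =
      {(j, x), (j, y)} := by
  rw [symmDiff_symmDiff_symmDiff_comm, symmDiff_self, bot_symmDiff,
    symmDiff_symmDiff_symmDiff_comm, symmDiff_self, bot_symmDiff]
  ext p
  rw [Finset.mem_symmDiff, Finset.mem_singleton, Finset.mem_singleton, Finset.mem_insert,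
    Finset.mem_singleton]
  constructor
  · rintro (⟨h1, _⟩ | ⟨h1, _⟩)
    · exact Or.inl h1
    · exact Or.inr h1
  · rintro (h1 | h1)
    · left
      refine ⟨h1, ?_⟩
      rw [h1]
      intro h2
      exact h (Prod.mk.inj h2).2
    · right
      refine ⟨h1, ?_⟩
      rw [h1]
      intro h2
      exact h (Prod.mk.inj h2).2.symm

theorem cb_inj {s : Finset (Option (Sym2 (Fin k)) × Fin k)} {j : Option (Sym2 (Fin k))}
    {r x y : Fin k} (h : cb s j r x = cb s j r y) : x = y := by
  by_contra hne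
  have h1 := symm_pair s j r x y hne
  unfold cb at h
  rw [Core.cube.injEq] at h
  rw [h, symmDiff_self] at h1
  have : (j, x) ∈ (⊥ : Finset (Option (Sym2 (Fin k)) × Fin k)) := by rw [h1]; simp
  simp at this

theorem cb_adj {m : ℕ} (s : Finset (Option (Sym2 (Fin k)) × Fin k)) (j : Option (Sym2 (Fin k)))
    (r : Fin k) {x y : Fin k} (h : P.H.Adj x y) (hne : s(x, y) ≠ s(P.v, P.l)) :
    (P.G m).Adj (Sum.inr (cb s j r x)) (Sum.inr (cb s j r y)) ∧
      P.vcol m (Sum.inr (cb s j r x)) (Sum.inr (cb s j r y)) = P.col j s(x, y) := by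
  have h1 : P.cubeEdge (symmDiff (symmDiff s (symmDiff {(j, r)} {(j, x)}))
      (symmDiff s (symmDiff {(j, r)} {(j, y)}))) j x y := ⟨h, hne, symm_pair s j r x y h.ne⟩
  exact ⟨⟨j, x, y, h1⟩, P.cubecol_eq h1⟩

/-- pendant vertex and blob vertex, colour of the pendant edge -/
theorem satC (hO : P.Ok) {m : ℕ} (i : Fin m) (s : Finset (Option (Sym2 (Fin k)) × Fin k)) :
    Rb P.H (P.G m ⊔ fromEdgeSet {s(Sum.inl i, Sum.inr (Core.cube s))})
      (Function.update (P.chi m) s(Sum.inl i, Sum.inr (Core.cube s)) (big k + i)) := by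
  classical
  refine P.mkRb (f := fun x => if x = P.l then Sum.inl i else Sum.inr (cb s none P.v x))
    (a0 := P.l) (b0 := P.v) (by simp) ?_ (if_pos rfl) ?_
    (fun e n => (e = s(P.l, P.v) ∧ n = big k + i) ∨ n = P.col none e) (Or.inl ⟨rfl, rfl⟩) ?_ ?_
  · intro x y h
    simp only [] at h
    split_ifs at h with h1 h2 h2
    · rw [h1, h2]
    · exact cb_inj (Sum.inr.inj h)
  · rw [if_neg hO.adj_vl.ne, cb_root]
  · intro e he hne
    induction e using Sym2.ind with
    | h a b =>
      have hab : P.H.Adj a b := he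
      have ha : a ≠ P.l := by
        rintro rfl
        exact hne (by rw [hO.nl b hab])
      have hb : b ≠ P.l := by
        rintro rfl
        exact hne (by rw [hO.nl a hab.symm, Sym2.eq_swap])
      refine ⟨a, b, rfl, ?_⟩
      simp only [if_neg ha, if_neg hb]
      have h1 : s(a, b) ≠ s(P.v, P.l) := by
        rw [Sym2.eq_swap (a := P.v)]
        exact hne
      have h2 := P.cb_adj (m := m) s none P.v hab h1
      exact ⟨h2.1, Or.inr h2.2⟩
  · rintro e e' n (⟨h1, h2⟩ | h1) (⟨h3, h4⟩ | h3)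
    · rw [h1, h3]
    · have := P.col_lt none e'
      omega
    · have := P.col_lt none e
      omega
    · exact P.col_none_inj (h1.symm.trans h3)

/-- pendant vertex and petal vertex, colour of the pendant edge -/
theorem satB (hO : P.Ok) {m : ℕ} (i : Fin m) (j : Option (Sym2 (Fin k))) (b : Bool) (y : Fin k) :
    Rb P.H (P.G m ⊔ fromEdgeSet {s(Sum.inl i, Sum.inr (Core.pet j b y))})
      (Function.update (P.chi m) s(Sum.inl i, Sum.inr (Core.pet j b y)) (big k + i)) := by
  classical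
  obtain ⟨j', hj'⟩ := P.exists_j (P.entcol j y)
  have hwv := hO.adj_wv.ne
  refine P.mkRb (f := fun x => if x = P.l then Sum.inl i else if x = P.v then
      Sum.inr (Core.pet j b y) else Sum.inr (cb ∅ j' P.w x))
    (a0 := P.l) (b0 := P.v) (by simp) ?_ (if_pos rfl) ?_
    (fun e n => (e = s(P.l, P.v) ∧ n = big k + i) ∨ (e = s(P.w, P.v) ∧ n = P.entcol j y) ∨
      (e ≠ s(P.w, P.v) ∧ n = P.col j' e)) (Or.inl ⟨rfl, rfl⟩) ?_ ?_
  · intro x y' h
    simp only [] at h
    split_ifs at h with h1 h2 h3 h4 h5 h6 h7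
    · rw [h1, h2]
    · rw [h4, h6]
    · exact absurd (Sum.inr.inj h) (by simp [cb])
    · exact absurd (Sum.inr.inj h) (by simp [cb])
    · exact cb_inj (Sum.inr.inj h)
  · rw [if_neg hO.adj_vl.ne, if_pos rfl]
  · intro e he hne
    by_cases hwe : e = s(P.w, P.v)
    · refine ⟨P.w, P.v, hwe, ?_⟩
      simp only [if_neg hO.wl, if_neg hwv, if_neg hO.adj_vl.ne, if_true]
      rw [cb_root]
      exact ⟨rfl, Or.inr (Or.inl ⟨hwe, rfl⟩)⟩
    · induction e using Sym2.ind with
      | h a b' =>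
        have hab : P.H.Adj a b' := he
        have ha : a ≠ P.l := by
          rintro rfl
          exact hne (by rw [hO.nl b' hab])
        have hb : b' ≠ P.l := by
          rintro rfl
          exact hne (by rw [hO.nl a hab.symm, Sym2.eq_swap])
        have ha' : a ≠ P.v := by
          rintro rfl
          rcases hO.nv b' hab with h | h
          · exact hwe (by rw [h, Sym2.eq_swap])
          · exact hb h
        have hb' : b' ≠ P.v := by
          rintro rfl
          rcases hO.nv a hab.symm with h | h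
          · exact hwe (by rw [h])
          · exact ha h
        refine ⟨a, b', rfl, ?_⟩
        simp only [if_neg ha, if_neg hb, if_neg ha', if_neg hb']
        have h1 : s(a, b') ≠ s(P.v, P.l) := by
          rw [Sym2.eq_swap (a := P.v)]
          exact hne
        have h2 := P.cb_adj (m := m) ∅ j' P.w hab h1
        exact ⟨h2.1, Or.inr (Or.inr ⟨hwe, h2.2⟩)⟩
  · have hlt := P.entcol_lt j y
    rintro e e' n (⟨h1, h2⟩ | ⟨h1, h2⟩ | ⟨h1, h2⟩) (⟨h3, h4⟩ | ⟨h3, h4⟩ | ⟨h3, h4⟩)
    · rw [h1, h3]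
    · omega
    · have := P.col_lt j' e'
      omega
    · omega
    · rw [h1, h3]
    · exact absurd (h4.symm.trans h2) (hj' e' h3)
    · have := P.col_lt j' e
      omega
    · exact absurd (h2.symm.trans h4) (hj' e h1)
    · exact P.col_inj h1 h3 (h2.symm.trans h4)

theorem exists_pi {m : ℕ} (hm : k + 3 ≤ m) (i : Fin m) (t : Fin m ⊕ Core k) (c : ℕ) :
    ∃ π : Fin k → Fin m, Function.Injective π ∧ ∀ x, π x ≠ i ∧ t ≠ Sum.inl (π x) ∧
      c ≠ big k + (π x : ℕ) := by
  classical
  let A1 : Finset (Fin m) := Finset.univ.filter (fun i' => t = Sum.inl i')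
  let A2 : Finset (Fin m) := Finset.univ.filter (fun i' => c = big k + (i' : ℕ))
  have h1 : A1.card ≤ 1 := by
    rw [Finset.card_le_one]
    intro a ha b hb
    rw [Finset.mem_filter] at ha hb
    exact Sum.inl.inj (ha.2.symm.trans hb.2)
  have h2 : A2.card ≤ 1 := by
    rw [Finset.card_le_one]
    intro a ha b hb
    rw [Finset.mem_filter] at ha hb
    apply Fin.ext
    have := ha.2.symm.trans hb.2
    omega
  let S : Finset (Fin m) := Finset.univ \ ({i} ∪ A1 ∪ A2)
  have h3 : ({i} ∪ A1 ∪ A2).card ≤ 3 := by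
    refine (Finset.card_union_le _ _).trans ?_
    have := Finset.card_union_le {i} A1
    rw [Finset.card_singleton] at this
    omega
  have h4 : S.card + ({i} ∪ A1 ∪ A2).card = m := by
    show (Finset.univ \ ({i} ∪ A1 ∪ A2) : Finset (Fin m)).card + _ = m
    rw [Finset.card_sdiff_add_card_eq_card (Finset.subset_univ _), Finset.card_univ,
      Fintype.card_fin]
  have h5 : Fintype.card (Fin k) ≤ Fintype.card S := by
    rw [Fintype.card_fin, Fintype.card_coe]
    omega
  obtain ⟨g⟩ := Function.Embedding.nonempty_of_card_le h5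
  refine ⟨fun x => (g x : Fin m), fun x y h => g.injective (Subtype.ext h), fun x => ?_⟩
  have h6 := (g x).2
  have h7 : ((g x : S) : Fin m) ∉ ({i} ∪ A1 ∪ A2 : Finset (Fin m)) := (Finset.mem_sdiff.1 h6).2
  rw [Finset.mem_union, Finset.mem_union, Finset.mem_singleton] at h7
  push Not at h7
  refine ⟨h7.1.1, fun h => h7.1.2 ?_, fun h => h7.2 ?_⟩
  · exact Finset.mem_filter.2 ⟨Finset.mem_univ _, h⟩
  · exact Finset.mem_filter.2 ⟨Finset.mem_univ _, h⟩

/-- pendant vertex and another vertex, colour different from that of the pendant edge -/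
theorem satA (hO : P.Ok) {m : ℕ} (hm : k + 3 ≤ m) (i : Fin m) (t : Fin m ⊕ Core k)
    (ht : t ≠ Sum.inl i) (ht2 : t ≠ Sum.inr Core.hub) {c : ℕ} (hc : c ≠ big k + i) :
    Rb P.H (P.G m ⊔ fromEdgeSet {s(Sum.inl i, t)})
      (Function.update (P.chi m) s(Sum.inl i, t) c) := by
  classical
  obtain ⟨j, hj⟩ := P.exists_j c
  obtain ⟨π, hπ, hπ2⟩ := exists_pi hm i t c
  obtain ⟨b, hb⟩ : ∃ b : Bool, ∀ j' y, t ≠ Sum.inr (Core.pet j' b y) := by
    by_contra hcon
    push Not at hcon
    obtain ⟨j1, y1, h1⟩ := hcon true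
    obtain ⟨j2, y2, h2⟩ := hcon false
    have := Sum.inr.inj (h1.symm.trans h2)
    rw [Core.pet.injEq] at this
    exact Bool.noConfusion this.2.1
  have hwv := hO.adj_wv.ne
  have hvl := hO.adj_vl.ne
  have hvlf : P.v ∉ lf P.H P.w := by
    intro h
    have h1 := (mem_lf.1 h).2
    have h2 : 1 < (nb P.H P.v).card := Fold.nl_iff.2 ⟨P.w, P.l, hO.adj_wv.symm, hO.adj_vl, hO.wl⟩
    omega
  have hllf : P.l ∉ lf P.H P.w := by
    intro h
    exact hwv (hO.nl _ (mem_lf.1 h).1.symm)
  obtain ⟨f, hf⟩ : ∃ f : Fin k → Fin m ⊕ Core k, f = fun x => if x = P.w then Sum.inr Core.hub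
    else if x = P.v then Sum.inl i else if x = P.l then t else if x ∈ lf P.H P.w then
    Sum.inl (π x) else Sum.inr (Core.pet j b x) := ⟨_, rfl⟩
  have fw : f P.w = Sum.inr Core.hub := by rw [hf]; exact if_pos rfl
  have fv : f P.v = Sum.inl i := by
    rw [hf]
    simp only [if_neg (Ne.symm hwv), if_true]
  have fl : f P.l = t := by
    rw [hf]
    simp only [if_neg (Ne.symm hO.wl), if_neg (Ne.symm hvl), if_true]
  have flf : ∀ x ∈ lf P.H P.w, f x = Sum.inl (π x) := by
    intro x hx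
    have h1 : x ≠ P.w := by
      rintro rfl
      exact P.w_notlf hx
    have h2 : x ≠ P.v := by
      rintro rfl
      exact hvlf hx
    have h3 : x ≠ P.l := by
      rintro rfl
      exact hllf hx
    rw [hf]
    simp only [if_neg h1, if_neg h2, if_neg h3, if_pos hx]
  have fY : ∀ x, P.isY x → f x = Sum.inr (Core.pet j b x) := by
    intro x hx
    rw [hf]
    simp only [if_neg hx.1, if_neg hx.2.1, if_neg hx.2.2.1, if_neg hx.2.2.2]
  have kinds : ∀ x, x = P.w ∨ x = P.v ∨ x = P.l ∨ x ∈ lf P.H P.w ∨ P.isY x := by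
    intro x
    by_cases h1 : x = P.w
    · exact Or.inl h1
    · by_cases h2 : x = P.v
      · exact Or.inr (Or.inl h2)
      · by_cases h3 : x = P.l
        · exact Or.inr (Or.inr (Or.inl h3))
        · by_cases h4 : x ∈ lf P.H P.w
          · exact Or.inr (Or.inr (Or.inr (Or.inl h4)))
          · exact Or.inr (Or.inr (Or.inr (Or.inr ⟨h1, h2, h3, h4⟩)))
  have hinj : Function.Injective f := by
    intro x y h
    rcases kinds x with hx | hx | hx | hx | hx <;> rcases kinds y with hy | hy | hy | hy | hy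
    · rw [hx, hy]
    · rw [hx, hy, fw, fv] at h; cases h
    · rw [hx, hy, fw, fl] at h; exact absurd h.symm ht2
    · rw [hx, fw, flf y hy] at h; cases h
    · rw [hx, fw, fY y hy] at h; cases h
    · rw [hx, hy, fw, fv] at h; cases h
    · rw [hx, hy]
    · rw [hx, hy, fv, fl] at h; exact absurd h.symm ht
    · rw [hx, fv, flf y hy] at h; exact absurd (Sum.inl.inj h).symm (hπ2 y).1
    · rw [hx, fv, fY y hy] at h; cases h
    · rw [hx, hy, fw, fl] at h; exact absurd h ht2
    · rw [hx, hy, fv, fl] at h; exact absurd h ht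
    · rw [hx, hy]
    · rw [hx, fl, flf y hy] at h; exact absurd h (hπ2 y).2.1
    · rw [hx, fl, fY y hy] at h; exact absurd h (hb _ _)
    · rw [hy, fw, flf x hx] at h; cases h
    · rw [hy, fv, flf x hx] at h; exact absurd (Sum.inl.inj h) (hπ2 x).1
    · rw [hy, fl, flf x hx] at h; exact absurd h.symm (hπ2 x).2.1
    · rw [flf x hx, flf y hy] at h; exact hπ (Sum.inl.inj h)
    · rw [flf x hx, fY y hy] at h; cases h
    · rw [hy, fw, fY x hx] at h; cases h
    · rw [hy, fv, fY x hx] at h; cases h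
    · rw [hy, fl, fY x hx] at h; exact absurd h.symm (hb _ _)
    · rw [flf y hy, fY x hx] at h; cases h
    · rw [fY x hx, fY y hy] at h
      have := Sum.inr.inj h
      rw [Core.pet.injEq] at this
      exact this.2.2
  have hYwv : ∀ y, P.isY y → s(P.w, y) ≠ s(P.w, P.v) := by
    intro y hy h
    rw [Sym2.congr_right] at h
    exact hy.2.1 h
  have hYYwv : ∀ y y', P.isY y → P.isY y' → s(y, y') ≠ s(P.w, P.v) := by
    intro y y' hy hy' h
    rw [Sym2.eq_iff] at h
    rcases h with ⟨h, _⟩ | ⟨h, _⟩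
    · exact hy.1 h
    · exact hy.2.1 h
  refine P.mkRb (f := f) (a0 := P.v) (b0 := P.l) (Ne.symm ht) hinj fv fl
    (fun e n => (e = s(P.v, P.l) ∧ n = c) ∨ (e = s(P.w, P.v) ∧ n = big k + i) ∨
      (∃ x ∈ lf P.H P.w, e = s(P.w, x) ∧ n = big k + π x) ∨
      (e ≠ s(P.w, P.v) ∧ n = P.col j e)) (Or.inl ⟨rfl, rfl⟩) ?_ ?_
  · intro e he hne
    rcases P.classify hO he with h | h | ⟨x, hx, h⟩ | ⟨y, hy, hwy, h⟩ | ⟨y, y', hy, hy', hyy, h⟩
    · refine ⟨P.w, P.v, h, ?_⟩
      rw [fw, fv]
      exact ⟨rfl, Or.inr (Or.inl ⟨h, rfl⟩)⟩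
    · exact absurd h hne
    · refine ⟨P.w, x, h, ?_⟩
      rw [fw, flf x hx]
      exact ⟨rfl, Or.inr (Or.inr (Or.inl ⟨x, hx, h, rfl⟩))⟩
    · refine ⟨P.w, y, h, ?_⟩
      rw [fw, fY y hy]
      refine ⟨⟨hy, hwy⟩, Or.inr (Or.inr (Or.inr ⟨?_, ?_⟩))⟩
      · rw [h]
        exact hYwv y hy
      · rw [h]
        rfl
    · refine ⟨y, y', h, ?_⟩
      rw [fY y hy, fY y' hy']
      refine ⟨⟨rfl, rfl, hy, hy', hyy⟩, Or.inr (Or.inr (Or.inr ⟨?_, ?_⟩))⟩
      · rw [h]
        exact hYYwv y y' hy hy'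
      · rw [h]
        exact if_pos rfl
  · rintro e e' n (⟨h1, h2⟩ | ⟨h1, h2⟩ | ⟨x, hx, h1, h2⟩ | ⟨h1, h2⟩)
      (⟨h3, h4⟩ | ⟨h3, h4⟩ | ⟨y, hy, h3, h4⟩ | ⟨h3, h4⟩)
    · rw [h1, h3]
    · exact absurd (h2.symm.trans h4) hc
    · exact absurd (h2.symm.trans h4) (hπ2 y).2.2
    · exact absurd (h4.symm.trans h2) (hj e' h3)
    · exact absurd (h4.symm.trans h2) hc
    · rw [h1, h3]
    · exfalso
      apply (hπ2 y).1
      apply Fin.ext
      omega
    · have := P.col_lt j e'
      omega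
    · exact absurd (h4.symm.trans h2) (hπ2 x).2.2
    · exfalso
      apply (hπ2 x).1
      apply Fin.ext
      omega
    · have h5 : π x = π y := by
        apply Fin.ext
        omega
      rw [h1, h3, hπ h5]
    · have := P.col_lt j e'
      omega
    · exact absurd (h2.symm.trans h4) (hj e h1)
    · have := P.col_lt j e
      omega
    · have := P.col_lt j e
      omega
    · exact P.col_inj h1 h3 (h2.symm.trans h4)

/-- all missing edges at pendant vertices are saturated -/
theorem sat_pend (hO : P.Ok) {m : ℕ} (hm : k + 3 ≤ m) (i : Fin m) (t : Fin m ⊕ Core k)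
    (ht : Sum.inl i ≠ t) (hadj : ¬ (P.G m).Adj (Sum.inl i) t) (c : ℕ) :
    Rb P.H (P.G m ⊔ fromEdgeSet {s(Sum.inl i, t)})
      (Function.update (P.chi m) s(Sum.inl i, t) c) := by
  have ht2 : t ≠ Sum.inr Core.hub := by
    rintro rfl
    exact hadj rfl
  by_cases hc : c = big k + i
  · rcases t with i' | t
    · have hii : i ≠ i' := fun h => ht (by rw [h])
      have h1 := P.satA hO hm i' (Sum.inl i) (fun h => hii (Sum.inl.inj h)) (by simp) (c := c)
        (by
          intro h
          apply hii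
          apply Fin.ext
          omega)
      rw [Sym2.eq_swap]
      exact h1
    · subst hc
      cases t with
      | hub => exact absurd rfl ht2
      | pet j b y => exact P.satB hO i j b y
      | cube s => exact P.satC hO i s
  · exact P.satA hO hm i t (Ne.symm ht) ht2 hc

end Pat

end Pool.Agent.Helper3.RT
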