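import Pool.Agent.Helper3.RT.Free2
import Pool.Agent.Helper3.RT.SatP
import Pool.Agent.Helper3.RT.Complete
import Pool.Agent.Helper28.RS.Count

/-! Rainbow saturation of graphs with a pendant path: the bound `n + O(1)` (MP_e4665f_co). -/

set_option autoImplicit false

namespace Pool.Agent.Helper3.RT

open SimpleGraph Pool.Agent.Helper28.RS Filter

variable {k : ℕ}

/-- from the construction to the bound -/
theorem Pat.good (P : Pat k) (hO : P.Ok) {m : ℕ} (hm : k + 3 ≤ m)
    (hfree : ¬ Rb P.H (P.G m) (P.chi m)) :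
    Good P.H (m + Fintype.card (Core k)) (m + Fintype.card (Sym2 (Core k))) := by
  classical
  let F : Set (Sym2 (Fin m ⊕ Core k)) :=
    Set.range (fun e : Sym2 (Core k) => e.map (Sum.inr : Core k → Fin m ⊕ Core k))
  obtain ⟨G', χ', h1, h2⟩ := complete (H := P.H) hfree F (by
    intro x y hxy hadj hF col
    rcases x with i | c
    · exact P.sat_pend hO hm i y hxy hadj col
    · rcases y with i | c'
      · have h3 := P.sat_pend hO hm i (Sum.inr c) (Ne.symm hxy) (fun h => hadj h.symm) col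
        rw [Sym2.eq_swap]
        exact h3
      · exact absurd ⟨s(c, c'), rfl⟩ hF)
  have h3 : G'.edgeSet ⊆ Set.range (fun i : Fin m =>
      (s(Sum.inl i, Sum.inr Core.hub) : Sym2 (Fin m ⊕ Core k))) ∪ F := by
    intro e he
    rcases h1 he with h4 | h4
    · induction e using Sym2.ind with
      | h x y =>
        have h5 : (P.G m).Adj x y := h4
        rcases x with i | c <;> rcases y with i' | c'
        · exact absurd h5 id
        · have h6 : c' = Core.hub := h5
          rw [h6]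
          exact Or.inl ⟨i, rfl⟩
        · have h6 : c = Core.hub := h5
          rw [h6, Sym2.eq_swap]
          exact Or.inl ⟨i', rfl⟩
        · exact Or.inr ⟨s(c, c'), rfl⟩
    · exact Or.inr h4
  have h4 : G'.edgeSet.ncard ≤ m + Fintype.card (Sym2 (Core k)) := by
    refine (Set.ncard_le_ncard h3 (Set.toFinite _)).trans ((Set.ncard_union_le _ _).trans ?_)
    refine Nat.add_le_add ?_ ?_
    · rw [← Set.image_univ]
      refine (Set.ncard_image_le (Set.toFinite _)).trans ?_
      rw [Set.ncard_univ, Nat.card_eq_fintype_card, Fintype.card_fin]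
    · show (Set.range _).ncard ≤ _
      rw [← Set.image_univ]
      refine (Set.ncard_image_le (Set.toFinite _)).trans ?_
      rw [Set.ncard_univ, Nat.card_eq_fintype_card]
  have h7 : Fintype.card (Fin m ⊕ Core k) = m + Fintype.card (Core k) := by
    rw [Fintype.card_sum, Fintype.card_fin]
  have h8 := h2.good
  rw [h7] at h8
  obtain ⟨G2, χ2, h5, h6⟩ := h8
  exact ⟨G2, χ2, h5.trans h4, h6⟩

theorem rsat_le_add (H : SimpleGraph (Fin k)) {K0 K1 m0 : ℕ}
    (h : ∀ m, m0 ≤ m → Good H (m + K0) (m + K1)) : ∃ C : ℕ, ∀ n, rsat H n ≤ n + C := by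
  refine ⟨K1 + ∑ i ∈ Finset.range (m0 + K0), rsat H i, fun n => ?_⟩
  by_cases hn : n < m0 + K0
  · have : rsat H n ≤ ∑ i ∈ Finset.range (m0 + K0), rsat H i :=
      Finset.single_le_sum (f := fun i => rsat H i) (fun _ _ => Nat.zero_le _)
        (Finset.mem_range.2 hn)
    omega
  · obtain ⟨m, rfl⟩ : ∃ m, n = m + K0 := ⟨n - K0, by omega⟩
    have := (h m (by omega)).rsat_le
    omega

/-- an upper bound `n + O(1)` implies that the limit exists -/
theorem limit_of_le (H : SimpleGraph (Fin k)) (hH : H.edgeSet.Nonempty) {C : ℕ}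
    (hC : ∀ n, rsat H n ≤ n + C) :
    ∃ c : ℝ, (c = 1 ∨ ∃ p : ℕ, 0 < p ∧ c = 1 - 1 / (p : ℝ)) ∧
      Tendsto (fun n : ℕ => (rsat H n : ℝ) / (n : ℝ)) atTop (nhds c) := by
  by_cases hlow : ∃ ε : ℝ, 0 < ε ∧ ∃ᶠ n : ℕ in atTop, (rsat H n : ℝ) ≤ (1 - ε) * n
  · obtain ⟨ε, hε, hlow⟩ := hlow
    obtain ⟨p, hp, D, hD⟩ := main_nat hH hε hlow
    refine ⟨1 - 1 / (p : ℝ), Or.inr ⟨p, hp, rfl⟩, ?_⟩
    have hp0 : (0 : ℝ) < p := by exact_mod_cast hp
    have hbound : ∀ n : ℕ, |(rsat H n : ℝ) - (1 - 1 / (p : ℝ)) * n| ≤ D := by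
      intro n
      obtain ⟨h1, h2⟩ := hD n
      have hp1 : (((p - 1 : ℕ) : ℕ) : ℝ) = (p : ℝ) - 1 := by
        push_cast [Nat.cast_sub (show 1 ≤ p by omega)]
        ring
      have h1' : (p : ℝ) * rsat H n ≤ ((p : ℝ) - 1) * n + D := by
        rw [← hp1]
        exact_mod_cast h1
      have h2' : ((p : ℝ) - 1) * n ≤ p * rsat H n + D := by
        rw [← hp1]
        exact_mod_cast h2
      have hC0 : (0 : ℝ) ≤ D := Nat.cast_nonneg D
      have hp1' : (1 : ℝ) ≤ p := by exact_mod_cast hp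
      have key : (p : ℝ) * ((rsat H n : ℝ) - (1 - 1 / (p : ℝ)) * n) =
          p * rsat H n - ((p : ℝ) - 1) * n := by
        field_simp
      have h3 : (p : ℝ) * |(rsat H n : ℝ) - (1 - 1 / (p : ℝ)) * n| ≤ D := by
        rw [← abs_of_pos hp0, ← abs_mul, abs_of_pos hp0, key, abs_le]
        constructor <;> linarith
      calc |(rsat H n : ℝ) - (1 - 1 / (p : ℝ)) * n|
          = 1 * |(rsat H n : ℝ) - (1 - 1 / (p : ℝ)) * n| := (one_mul _).symm
        _ ≤ p * |(rsat H n : ℝ) - (1 - 1 / (p : ℝ)) * n| :=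
            mul_le_mul_of_nonneg_right hp1' (abs_nonneg _)
        _ ≤ D := h3
    rw [tendsto_iff_dist_tendsto_zero]
    have hlim : Tendsto (fun n : ℕ => (D : ℝ) / (n : ℝ)) atTop (nhds 0) :=
      tendsto_const_div_atTop_nhds_zero_nat (D : ℝ)
    refine squeeze_zero' (Eventually.of_forall fun n => dist_nonneg) ?_ hlim
    filter_upwards [eventually_gt_atTop 0] with n hn
    have hn0 : (0 : ℝ) < n := by exact_mod_cast hn
    rw [Real.dist_eq, le_div_iff₀ hn0]
    have h1 := hbound n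
    rw [← abs_of_pos hn0, ← abs_mul, abs_of_pos hn0]
    have h2 : ((rsat H n : ℝ) / n - (1 - 1 / (p : ℝ))) * n =
        (rsat H n : ℝ) - (1 - 1 / (p : ℝ)) * n := by
      field_simp
    rw [h2]
    exact h1
  · refine ⟨1, Or.inl rfl, ?_⟩
    push Not at hlow
    rw [Metric.tendsto_atTop]
    intro ε hε
    have h1 := hlow (ε / 2) (by linarith)
    rw [eventually_atTop] at h1
    obtain ⟨N1, hN1⟩ := h1
    obtain ⟨N2, hN2⟩ := exists_nat_gt ((C : ℝ) / ε)
    refine ⟨max (N1 + 1) (N2 + 1), fun n hn => ?_⟩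
    have hn1 : N1 ≤ n := by
      have := le_max_left (N1 + 1) (N2 + 1)
      omega
    have hn2 : N2 + 1 ≤ n := (le_max_right _ _).trans hn
    have hn0 : (0 : ℝ) < n := by
      have : 0 < n := by omega
      exact_mod_cast this
    have h2 := hN1 n hn1
    have h3 : (rsat H n : ℝ) ≤ n + C := by exact_mod_cast hC n
    have h4 : (C : ℝ) < ε * n := by
      rw [div_lt_iff₀ hε] at hN2
      have h5 : (N2 : ℝ) ≤ n := by
        have : N2 ≤ n := by omega
        exact_mod_cast this
      nlinarith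
    rw [Real.dist_eq, abs_lt]
    constructor
    · rw [lt_sub_iff_add_lt, lt_div_iff₀ hn0]
      nlinarith
    · rw [sub_lt_iff_lt_add, div_lt_iff₀ hn0]
      nlinarith

end Pool.Agent.Helper3.RT
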