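import Pool.Agent.Helper3.RT.Danger
import Pool.Agent.Helper28.RS.Defs

/-! Rainbow saturation of graphs with a pendant path: the construction (MP_e4665f_co). -/

set_option autoImplicit false

namespace Pool.Agent.Helper3.RT

open SimpleGraph

/-- the bounded part of the construction -/
inductive Core (k : ℕ) : Type
  | hub : Core k
  | pet (j : Option (Sym2 (Fin k))) (b : Bool) (y : Fin k) : Core k
  | cube (s : Finset (Option (Sym2 (Fin k)) × Fin k)) : Core k
  deriving DecidableEq, Fintype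

variable {k : ℕ}

/-- the pattern -/
structure Pat (k : ℕ) where
  H : SimpleGraph (Fin k)
  w : Fin k
  v : Fin k
  l : Fin k

namespace Pat

variable (P : Pat k)

/-- vertices which occur in the petals -/
def isY (y : Fin k) : Prop := y ≠ P.w ∧ y ≠ P.v ∧ y ≠ P.l ∧ y ∉ lf P.H P.w

/-- names of the edges -/
noncomputable def beta (e : Sym2 (Fin k)) : ℕ := (Fintype.equivFin (Sym2 (Fin k)) e).val + 1

theorem beta_inj {e e' : Sym2 (Fin k)} (h : beta e = beta e') : e = e' := by
  unfold beta at h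
  have : (Fintype.equivFin (Sym2 (Fin k)) e) = (Fintype.equivFin (Sym2 (Fin k)) e') := by
    apply Fin.ext
    omega
  exact (Fintype.equivFin _).injective this

theorem beta_pos (e : Sym2 (Fin k)) : beta e ≠ 0 := by
  unfold beta
  omega

/-- colours of the petals -/
noncomputable def col (j : Option (Sym2 (Fin k))) (e : Sym2 (Fin k)) : ℕ :=
  if e = s(P.w, P.v) ∨ j = some e then 0 else beta e

/-- an upper bound for the colours of the bounded part -/
def big (k : ℕ) : ℕ := Fintype.card (Sym2 (Fin k)) + 1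

theorem beta_lt (e : Sym2 (Fin k)) : beta e < big k := by
  unfold beta big
  have := (Fintype.equivFin (Sym2 (Fin k)) e).isLt
  omega

theorem col_lt (j : Option (Sym2 (Fin k))) (e : Sym2 (Fin k)) : P.col j e < big k := by
  unfold col
  split_ifs
  · unfold big
    omega
  · exact beta_lt e

/-- the pattern without the vertex `w` -/
def H0 : SimpleGraph (Fin k) where
  Adj x y := P.H.Adj x y ∧ x ≠ P.w ∧ y ≠ P.w
  symm := ⟨fun _ _ h => ⟨h.1.symm, h.2.2, h.2.1⟩⟩
  loopless := ⟨fun _ h => h.1.ne rfl⟩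

/-- the colour of the edge between a petal vertex and the blob -/
noncomputable def entcol (j : Option (Sym2 (Fin k))) (y : Fin k) : ℕ := by
  classical
  exact if h : P.isY y ∧ ∃ a, P.H.Adj P.w a ∧ P.H0.Reachable a y then
    P.col j s(P.w, h.2.choose) else 0

/-- edges of the blob -/
def cubeEdge (S : Finset (Option (Sym2 (Fin k)) × Fin k)) (j : Option (Sym2 (Fin k)))
    (a b : Fin k) : Prop :=
  P.H.Adj a b ∧ s(a, b) ≠ s(P.v, P.l) ∧ S = {(j, a), (j, b)}

/-- colours of the blob -/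
noncomputable def cubecol (S : Finset (Option (Sym2 (Fin k)) × Fin k)) : ℕ := by
  classical
  exact if h : ∃ j a b, P.cubeEdge S j a b then
    P.col h.choose s(h.choose_spec.choose, h.choose_spec.choose_spec.choose) else 0

theorem cubeEdge_unique {S : Finset (Option (Sym2 (Fin k)) × Fin k)}
    {j j' : Option (Sym2 (Fin k))} {a b a' b' : Fin k} (h' : P.cubeEdge S j' a' b')
    (h : P.cubeEdge S j a b) : j' = j ∧ s(a', b') = s(a, b) := by
  have hab' : a' ≠ b' := h'.1.ne
  have he : ({(j', a'), (j', b')} : Finset (Option (Sym2 (Fin k)) × Fin k)) = {(j, a), (j, b)} :=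
    h'.2.2.symm.trans h.2.2
  have h1 : (j', a') ∈ ({(j, a), (j, b)} : Finset (Option (Sym2 (Fin k)) × Fin k)) := by
    rw [← he]; simp
  have h2 : (j', b') ∈ ({(j, a), (j, b)} : Finset (Option (Sym2 (Fin k)) × Fin k)) := by
    rw [← he]; simp
  simp only [Finset.mem_insert, Finset.mem_singleton, Prod.mk.injEq] at h1 h2
  rcases h1 with ⟨hj, h1⟩ | ⟨hj, h1⟩
  · rcases h2 with ⟨_, h2⟩ | ⟨_, h2⟩
    · exact absurd (h1.trans h2.symm) hab'
    · exact ⟨hj, by rw [h1, h2]⟩
  · rcases h2 with ⟨_, h2⟩ | ⟨_, h2⟩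
    · exact ⟨hj, by rw [h1, h2, Sym2.eq_swap]⟩
    · exact absurd (h1.trans h2.symm) hab'

theorem cubecol_eq {S : Finset (Option (Sym2 (Fin k)) × Fin k)} {j : Option (Sym2 (Fin k))}
    {a b : Fin k} (h : P.cubeEdge S j a b) : P.cubecol S = P.col j s(a, b) := by
  classical
  have hex : ∃ j a b, P.cubeEdge S j a b := ⟨j, a, b, h⟩
  unfold cubecol
  rw [dif_pos hex]
  obtain ⟨h1, h2⟩ := P.cubeEdge_unique hex.choose_spec.choose_spec.choose_spec h
  exact congrArg₂ P.col h1 h2

/-- adjacency in the bounded part -/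
def cadj : Core k → Core k → Prop
  | .hub, .pet _ _ y => P.isY y ∧ P.H.Adj P.w y
  | .pet _ _ y, .hub => P.isY y ∧ P.H.Adj P.w y
  | .pet j b y, .pet j' b' y' => j = j' ∧ b = b' ∧ P.isY y ∧ P.isY y' ∧ P.H.Adj y y'
  | .pet _ _ _, .cube s => s = ∅
  | .cube s, .pet _ _ _ => s = ∅
  | .cube s, .cube s' => ∃ j a b, P.cubeEdge (symmDiff s s') j a b
  | _, _ => False

/-- colours in the bounded part -/
noncomputable def ccol : Core k → Core k → ℕ
  | .hub, .pet j _ y => P.col j s(P.w, y)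
  | .pet j _ y, .hub => P.col j s(P.w, y)
  | .pet j _ y, .pet j' _ y' => if j = j' then P.col j s(y, y') else 0
  | .pet j _ y, .cube _ => P.entcol j y
  | .cube _, .pet j _ y => P.entcol j y
  | .cube s, .cube s' => P.cubecol (symmDiff s s')
  | _, _ => 0

theorem cadj_symm {c c' : Core k} (h : P.cadj c c') : P.cadj c' c := by
  cases c <;> cases c' <;> simp only [cadj] at h ⊢
  · exact h
  · exact h
  · obtain ⟨h1, h2, h3, h4, h5⟩ := h
    exact ⟨h1.symm, h2.symm, h4, h3, h5.symm⟩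
  · exact h
  · exact h
  · rwa [symmDiff_comm]

theorem ccol_symm (c c' : Core k) : P.ccol c c' = P.ccol c' c := by
  cases c <;> cases c' <;> simp only [ccol]
  · rename_i j b y j' b' y'
    by_cases h : j = j'
    · subst h
      rw [if_pos rfl, if_pos rfl, Sym2.eq_swap]
    · rw [if_neg h, if_neg (Ne.symm h)]
  · rw [symmDiff_comm]

theorem cadj_irrefl (c : Core k) : ¬ P.cadj c c := by
  cases c
  · simp [cadj]
  · rename_i j b y
    rintro ⟨_, _, _, _, h⟩
    exact h.ne rfl
  · rename_i s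
    rintro ⟨j, a, b, _, _, h⟩
    rw [symmDiff_self] at h
    have : (j, a) ∈ (⊥ : Finset (Option (Sym2 (Fin k)) × Fin k)) := by rw [h]; simp
    simp at this

/-- adjacency -/
def vadj (m : ℕ) : Fin m ⊕ Core k → Fin m ⊕ Core k → Prop
  | .inl _, .inl _ => False
  | .inl _, .inr c => c = .hub
  | .inr c, .inl _ => c = .hub
  | .inr c, .inr c' => P.cadj c c'

/-- colours -/
noncomputable def vcol (m : ℕ) : Fin m ⊕ Core k → Fin m ⊕ Core k → ℕ
  | .inl _, .inl _ => 0
  | .inl i, .inr _ => big k + i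
  | .inr _, .inl i => big k + i
  | .inr c, .inr c' => P.ccol c c'

theorem vcol_symm (m : ℕ) (x y : Fin m ⊕ Core k) : P.vcol m x y = P.vcol m y x := by
  cases x <;> cases y <;> simp only [vcol]
  exact P.ccol_symm _ _

/-- the graph -/
def G (m : ℕ) : SimpleGraph (Fin m ⊕ Core k) where
  Adj := P.vadj m
  symm := ⟨by
    intro x y h
    cases x <;> cases y <;> simp only [vadj] at h ⊢
    · exact h
    · exact h
    · exact P.cadj_symm h⟩
  loopless := ⟨by
    intro x h
    cases x <;> simp only [vadj] at h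
    exact P.cadj_irrefl _ h⟩

/-- the colouring -/
noncomputable def chi (m : ℕ) : Sym2 (Fin m ⊕ Core k) → ℕ :=
  Sym2.lift ⟨P.vcol m, P.vcol_symm m⟩

theorem chi_mk (m : ℕ) (x y : Fin m ⊕ Core k) : P.chi m s(x, y) = P.vcol m x y := rfl

/-- the hypotheses on the pattern -/
structure Ok : Prop where
  adj_wv : P.H.Adj P.w P.v
  adj_vl : P.H.Adj P.v P.l
  nv : ∀ x, P.H.Adj P.v x → x = P.w ∨ x = P.l
  nl : ∀ x, P.H.Adj P.l x → x = P.v
  wl : P.w ≠ P.l
  nlw : 1 < (nb P.H P.w).card
  conn : P.H.Connected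

/-- every edge at `w` is a bridge -/
def Bri : Prop := ∀ y, P.H.Adj P.w y → ¬ (P.H \ fromEdgeSet {s(P.w, y)}).Reachable P.w y

theorem ent_unique (hB : P.Bri) {a a' : Fin k} (ha : P.H.Adj P.w a) (ha' : P.H.Adj P.w a')
    (h : P.H0.Reachable a a') : a = a' := by
  by_contra hne
  apply hB a ha
  have h1 : (P.H \ fromEdgeSet {s(P.w, a)}).Adj P.w a' := by
    rw [SimpleGraph.sdiff_adj, SimpleGraph.fromEdgeSet_adj]
    refine ⟨ha', fun h3 => ?_⟩
    have h4 : s(P.w, a') = s(P.w, a) := h3.1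
    rw [Sym2.congr_right] at h4
    exact hne h4.symm
  have h2 : P.H0 ≤ P.H \ fromEdgeSet {s(P.w, a)} := by
    intro x y hxy
    rw [SimpleGraph.sdiff_adj, SimpleGraph.fromEdgeSet_adj]
    refine ⟨hxy.1, fun h3 => ?_⟩
    have h4 : P.w ∈ s(x, y) := by
      have h5 : s(x, y) = s(P.w, a) := h3.1
      rw [h5]
      simp
    rw [Sym2.mem_iff] at h4
    rcases h4 with h4 | h4
    · exact hxy.2.1 h4.symm
    · exact hxy.2.2 h4.symm
  exact h1.reachable.trans (h.symm.mono h2)

theorem entcol_eq (hB : P.Bri) {j : Option (Sym2 (Fin k))} {y a : Fin k} (hy : P.isY y)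
    (ha : P.H.Adj P.w a) (h : P.H0.Reachable a y) : P.entcol j y = P.col j s(P.w, a) := by
  classical
  have hex : P.isY y ∧ ∃ a, P.H.Adj P.w a ∧ P.H0.Reachable a y := ⟨hy, a, ha, h⟩
  unfold entcol
  rw [dif_pos hex]
  have h1 := hex.2.choose_spec
  have h2 := P.ent_unique hB h1.1 ha (h1.2.trans h.symm)
  rw [h2]

end Pat

end Pool.Agent.Helper3.RT
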