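import Pool.Agent.Helper3.RT.SatP

/-! Rainbow saturation of graphs with a pendant path: second construction, for pendant paths at
vertices which may lie on cycles (MP_e4665f_co). -/

set_option autoImplicit false

namespace Pool.Agent.Helper3.RT

open SimpleGraph Pool.Agent.Helper28.RS

variable {k : ℕ}

namespace Pat

variable (P : Pat k)

/-- petal vertices which are joined to the hub -/
def isN (y : Fin k) : Prop := P.isY y ∧ 1 < (nb P.H y).card

/-- colours at the hub -/
noncomputable def hcol (j : Option (Sym2 (Fin k))) (y : Fin k) : ℕ := by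
  classical exact if P.H.Adj P.w y then P.col j s(P.w, y) else 0

/-- colours between leaves of the petals and the blob -/
noncomputable def lcol (j : Option (Sym2 (Fin k))) (y : Fin k) : ℕ := by
  classical
  exact if h : P.isY y ∧ ∃ n, P.H.Adj n y then P.col j s(h.2.choose, y) else 0

theorem lcol_eq {j : Option (Sym2 (Fin k))} {y n : Fin k} (hy : P.isY y)
    (hl : ¬ 1 < (nb P.H y).card) (h : P.H.Adj n y) : P.lcol j y = P.col j s(n, y) := by
  classical
  have hex : P.isY y ∧ ∃ n, P.H.Adj n y := ⟨hy, n, h⟩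
  unfold lcol
  rw [dif_pos hex]
  have h1 := hex.2.choose_spec
  rw [Fold.leaf_unique hl h1.symm h.symm]

/-- adjacency in the bounded part -/
def cadj2 : Core k → Core k → Prop
  | .hub, .pet _ _ y => P.isN y
  | .pet _ _ y, .hub => P.isN y
  | .pet j b y, .pet j' b' y' => j = j' ∧ b = b' ∧ P.isY y ∧ P.isY y' ∧ P.H.Adj y y'
  | .pet _ _ y, .cube s => ¬ P.isN y ∧ s = ∅
  | .cube s, .pet _ _ y => ¬ P.isN y ∧ s = ∅
  | .cube s, .cube s' => ∃ j a b, P.cubeEdge (symmDiff s s') j a b
  | _, _ => False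

/-- colours in the bounded part -/
noncomputable def ccol2 : Core k → Core k → ℕ
  | .hub, .pet j _ y => P.hcol j y
  | .pet j _ y, .hub => P.hcol j y
  | .pet j _ y, .pet j' _ y' => if j = j' then P.col j s(y, y') else 0
  | .pet j _ y, .cube _ => P.lcol j y
  | .cube _, .pet j _ y => P.lcol j y
  | .cube s, .cube s' => P.cubecol (symmDiff s s')
  | _, _ => 0

theorem cadj2_symm {c c' : Core k} (h : P.cadj2 c c') : P.cadj2 c' c := by
  cases c <;> cases c' <;> simp only [cadj2] at h ⊢
  · exact h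
  · exact h
  · obtain ⟨h1, h2, h3, h4, h5⟩ := h
    exact ⟨h1.symm, h2.symm, h4, h3, h5.symm⟩
  · exact h
  · exact h
  · rwa [symmDiff_comm]

theorem ccol2_symm (c c' : Core k) : P.ccol2 c c' = P.ccol2 c' c := by
  cases c <;> cases c' <;> simp only [ccol2]
  · rename_i j b y j' b' y'
    by_cases h : j = j'
    · subst h
      rw [if_pos rfl, if_pos rfl, Sym2.eq_swap]
    · rw [if_neg h, if_neg (Ne.symm h)]
  · rw [symmDiff_comm]

theorem cadj2_irrefl (c : Core k) : ¬ P.cadj2 c c := by
  cases c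
  · simp [cadj2]
  · rename_i j b y
    rintro ⟨_, _, _, _, h⟩
    exact h.ne rfl
  · rename_i s
    rintro ⟨j, a, b, _, _, h⟩
    rw [symmDiff_self] at h
    have : (j, a) ∈ (⊥ : Finset (Option (Sym2 (Fin k)) × Fin k)) := by rw [h]; simp
    simp at this

/-- adjacency -/
def vadj2 (m : ℕ) : Fin m ⊕ Core k → Fin m ⊕ Core k → Prop
  | .inl _, .inl _ => False
  | .inl _, .inr c => c = .hub
  | .inr c, .inl _ => c = .hub
  | .inr c, .inr c' => P.cadj2 c c'

/-- colours -/
noncomputable def vcol2 (m : ℕ) : Fin m ⊕ Core k → Fin m ⊕ Core k → ℕ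
  | .inl _, .inl _ => 0
  | .inl i, .inr _ => big k + i
  | .inr _, .inl i => big k + i
  | .inr c, .inr c' => P.ccol2 c c'

theorem vcol2_symm (m : ℕ) (x y : Fin m ⊕ Core k) : P.vcol2 m x y = P.vcol2 m y x := by
  cases x <;> cases y <;> simp only [vcol2]
  exact P.ccol2_symm _ _

/-- the graph -/
def G2 (m : ℕ) : SimpleGraph (Fin m ⊕ Core k) where
  Adj := P.vadj2 m
  symm := ⟨by
    intro x y h
    cases x <;> cases y <;> simp only [vadj2] at h ⊢
    · exact h
    · exact h
    · exact P.cadj2_symm h⟩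
  loopless := ⟨by
    intro x h
    cases x <;> simp only [vadj2] at h
    exact P.cadj2_irrefl _ h⟩

/-- the colouring -/
noncomputable def chi2 (m : ℕ) : Sym2 (Fin m ⊕ Core k) → ℕ :=
  Sym2.lift ⟨P.vcol2 m, P.vcol2_symm m⟩

theorem hcol_mem_S0 (hO : P.Ok) (j : Option (Sym2 (Fin k))) (y : Fin k) : P.hcol j y ∈ P.S0 := by
  classical
  unfold hcol
  split_ifs with h
  · exact P.col_mem_S0 hO (P.mem_erase_of h (P.w_ne hO _)) j
  · exact P.zero_mem_S0 hO

theorem lcol_mem_S0 (hO : P.Ok) (j : Option (Sym2 (Fin k))) (y : Fin k) : P.lcol j y ∈ P.S0 := by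
  classical
  unfold lcol
  split_ifs with h
  · refine P.col_mem_S0 hO (P.mem_erase_of h.2.choose_spec ?_) j
    rw [Sym2.eq_swap]
    exact P.Y_ne h.1
  · exact P.zero_mem_S0 hO

theorem ccol2_mem_S0 (hO : P.Ok) {c c' : Core k} (h : P.cadj2 c c') : P.ccol2 c c' ∈ P.S0 := by
  cases c <;> cases c' <;> simp only [cadj2, ccol2] at h ⊢
  · exact P.hcol_mem_S0 hO _ _
  · exact P.hcol_mem_S0 hO _ _
  · obtain ⟨h1, h2, h3, h4, h5⟩ := h
    rw [if_pos h1]
    exact P.col_mem_S0 hO (P.mem_erase_of h5 (P.Y_ne h3)) _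
  · exact P.lcol_mem_S0 hO _ _
  · exact P.lcol_mem_S0 hO _ _
  · obtain ⟨j, a, b, h⟩ := h
    rw [P.cubecol_eq h]
    exact P.col_mem_S0 hO (P.mem_erase_of h.1 h.2.1) _

theorem hcol_lt (j : Option (Sym2 (Fin k))) (y : Fin k) : P.hcol j y < big k := by
  classical
  unfold hcol
  split_ifs
  · exact P.col_lt _ _
  · unfold big
    omega

theorem lcol_lt (j : Option (Sym2 (Fin k))) (y : Fin k) : P.lcol j y < big k := by
  classical
  unfold lcol
  split_ifs
  · exact P.col_lt _ _
  · unfold big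
    omega

section copy

variable {m : ℕ} {f : Fin k → Fin m ⊕ Core k}

theorem rbpair2 (hf : IsRb P.H (P.G2 m) (P.chi2 m) f) {a b c d : Fin k} (h1 : P.H.Adj a b)
    (h2 : P.H.Adj c d) (h : P.vcol2 m (f a) (f b) = P.vcol2 m (f c) (f d)) :
    s(a, b) = s(c, d) := by
  apply hf.2.2 s(a, b) h1 s(c, d) h2
  rw [Sym2.map_mk, Sym2.map_mk]
  exact h

theorem exists_pend2 (hO : P.Ok) (hf : IsRb P.H (P.G2 m) (P.chi2 m) f) :
    ∃ a i, f a = Sum.inl i := by
  classical
  by_contra hcon
  push Not at hcon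
  have hc : ∀ x, ∃ c, f x = Sum.inr c := by
    intro x
    rcases hx : f x with i | c
    · exact absurd hx (hcon x i)
    · exact ⟨c, rfl⟩
  have h1 : (ed P.H).card ≤ P.S0.card := by
    refine Finset.card_le_card_of_injOn (fun e => P.chi2 m (e.map f)) ?_ ?_
    · intro e he
      rw [Finset.mem_coe, mem_ed] at he
      induction e using Sym2.ind with
      | h a b =>
        obtain ⟨c, hca⟩ := hc a
        obtain ⟨d, hdb⟩ := hc b
        have h2 := hf.2.1 a b he
        have h3 : P.cadj2 c d := by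
          rw [hca, hdb] at h2
          exact h2
        have h4 : P.chi2 m (Sym2.map f s(a, b)) = P.ccol2 c d := by
          rw [Sym2.map_mk, hca, hdb]
          rfl
        rw [Finset.mem_coe]
        simp only []
        rw [h4]
        exact P.ccol2_mem_S0 hO h3
    · intro e he e' he' h
      rw [Finset.mem_coe, mem_ed] at he he'
      exact hf.2.2 e he e' he' h
  have h2 := P.card_S0 hO
  omega

theorem nbr_pend2 (hf : IsRb P.H (P.G2 m) (P.chi2 m) f) {a x : Fin k} {i : Fin m}
    (ha : f a = Sum.inl i) (h : P.H.Adj a x) : f x = Sum.inr Core.hub := by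
  have h1 := hf.2.1 a x h
  rw [ha] at h1
  rcases hx : f x with j | c
  · rw [hx] at h1
    exact absurd h1 id
  · rw [hx] at h1
    have h2 : c = Core.hub := h1
    rw [h2]

/-- the shape of a copy -/
theorem shape2 (hO : P.Ok) (hf : IsRb P.H (P.G2 m) (P.chi2 m) f) {u : Fin k}
    (hu : f u = Sum.inr Core.hub) (x : Fin k) : x = u ∨ (∃ i, f x = Sum.inl i) ∨
    (∃ j b y, P.isY y ∧ f x = Sum.inr (Core.pet j b y) ∧ (1 < (nb P.H y).card ∨
      ∃ x' y', P.H.Adj x' x ∧ f x' = Sum.inr (Core.pet j b y') ∧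
        P.vcol2 m (f x') (f x) = P.lcol j y)) := by
  have hr := hO.conn.preconnected u x
  rw [SimpleGraph.reachable_iff_reflTransGen] at hr
  induction hr with
  | refl => exact Or.inl rfl
  | @tail x z _ hxz ih =>
    rcases ih with rfl | ⟨i, hi⟩ | ⟨j, b, y, hy, hx, hlast⟩
    · have h1 := hf.2.1 _ _ hxz
      rw [hu] at h1
      rcases hz : f z with i | c
      · exact Or.inr (Or.inl ⟨i, rfl⟩)
      · rw [hz] at h1
        have h2 : P.cadj2 Core.hub c := h1
        cases c with
        | hub => exact absurd h2 id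
        | pet j b y => exact Or.inr (Or.inr ⟨j, b, y, h2.1, rfl, Or.inl h2.2⟩)
        | cube s => exact absurd h2 id
    · left
      exact hf.1 ((P.nbr_pend2 hf hi hxz).trans hu.symm)
    · have h1 := hf.2.1 _ _ hxz
      rw [hx] at h1
      rcases hz : f z with i | c
      · exact Or.inr (Or.inl ⟨i, rfl⟩)
      · rw [hz] at h1
        have h2 : P.cadj2 (Core.pet j b y) c := h1
        cases c with
        | hub => exact Or.inl (hf.1 (hz.trans hu.symm))
        | pet j' b' y' =>
          obtain ⟨h3, h4, h5, h6, h7⟩ := h2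
          subst h3
          subst h4
          refine Or.inr (Or.inr ⟨j, b, y', h6, rfl, ?_⟩)
          by_cases h8 : 1 < (nb P.H y').card
          · exact Or.inl h8
          · right
            refine ⟨x, y, hxz, hx, ?_⟩
            rw [hx, P.lcol_eq h6 h8 h7]
            exact if_pos rfl
        | cube s =>
          exfalso
          rcases hlast with h3 | ⟨x', y', h3, h4, h5⟩
          · exact h2.1 ⟨hy, h3⟩
          · have h6 : P.vcol2 m (f x') (f x) = P.vcol2 m (f x) (f z) := by
              rw [h5, hx, hz]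
              rfl
            have h7 := P.rbpair2 hf h3 hxz h6
            rw [Sym2.eq_swap, Sym2.congr_right] at h7
            rw [h7, hz] at h4
            cases h4

/-- the structure of a copy through the hub -/
structure Cq (P : Pat k) (m : ℕ) (f : Fin k → Fin m ⊕ Core k) (u : Fin k) : Prop where
  ok : P.Ok
  rb : IsRb P.H (P.G2 m) (P.chi2 m) f
  hu : f u = Sum.inr Core.hub

namespace Cq

variable {P} {u : Fin k} (C : Cq P m f u)

include C

theorem upd : u ∉ pd f := by
  rw [mem_pd]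
  rintro ⟨i, h⟩
  rw [C.hu] at h
  cases h

theorem cases {x : Fin k} (hx : x ∉ pd f) : x = u ∨ ∃ j b, P.isY (P.pos (f x)) ∧
    f x = Sum.inr (Core.pet j b (P.pos (f x))) := by
  rcases P.shape2 C.ok C.rb C.hu x with h | h | ⟨j, b, y, hy, h, _⟩
  · exact Or.inl h
  · exact absurd (mem_pd.2 h) hx
  · right
    refine ⟨j, b, ?_⟩
    rw [h]
    exact ⟨hy, rfl⟩

theorem pos_u : P.pos (f u) = P.w := by
  rw [C.hu]
  rfl

theorem pos_mem {x : Fin k} (hx : x ∉ pd f) : P.pos (f x) ∈ P.Zs := by
  rcases C.cases hx with h1 | ⟨j, b, hy, h1⟩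
  · rw [h1, C.pos_u]
    exact P.w_mem_Zs C.ok
  · exact P.Y_mem_Zs hy

/-- adjacency of positions and colours -/
theorem edge {x y : Fin k} (hx : x ∉ pd f) (hy : y ∉ pd f) (h : P.H.Adj x y) :
    (P.H.Adj (P.pos (f x)) (P.pos (f y)) ∧
      ∃ j, P.vcol2 m (f x) (f y) = P.col j s(P.pos (f x), P.pos (f y))) ∨
    (P.vcol2 m (f x) (f y) = 0 ∧ ((x = u ∧ 1 < (nb P.H (P.pos (f y))).card) ∨
      (y = u ∧ 1 < (nb P.H (P.pos (f x))).card))) := by
  classical
  have h1 := C.rb.2.1 x y h
  rcases C.cases hx with hx1 | ⟨j, b, hx1, hx2⟩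
  · rcases C.cases hy with hy1 | ⟨j', b', hy1, hy2⟩
    · exact absurd (hx1.trans hy1.symm) h.ne
    · subst hx1
      rw [C.hu, hy2] at h1
      have h2 : P.isN _ := h1
      by_cases h3 : P.H.Adj P.w (P.pos (f y))
      · left
        rw [C.pos_u]
        refine ⟨h3, j', ?_⟩
        rw [C.hu, hy2]
        exact if_pos h3
      · right
        refine ⟨?_, Or.inl ⟨rfl, h2.2⟩⟩
        rw [C.hu, hy2]
        exact if_neg h3
  · rcases C.cases hy with hy1 | ⟨j', b', hy1, hy2⟩
    · subst hy1
      rw [C.hu, hx2] at h1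
      have h2 : P.isN _ := h1
      by_cases h3 : P.H.Adj P.w (P.pos (f x))
      · left
        rw [C.pos_u]
        refine ⟨h3.symm, j, ?_⟩
        rw [C.hu, hx2, Sym2.eq_swap]
        exact if_pos h3
      · right
        refine ⟨?_, Or.inr ⟨rfl, h2.2⟩⟩
        rw [C.hu, hx2]
        exact if_neg h3
    · left
      rw [hx2, hy2] at h1
      have h2 : j = j' ∧ b = b' ∧ P.isY _ ∧ P.isY _ ∧ P.H.Adj _ _ := h1
      refine ⟨h2.2.2.2.2, j, ?_⟩
      rw [hx2, hy2]
      exact if_pos h2.1

theorem pdL {a : Fin k} (ha : a ∈ pd f) : P.H.Adj u a ∧ ∀ x, P.H.Adj a x → x = u := by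
  obtain ⟨i, hi⟩ := mem_pd.1 ha
  have h1 : ∀ x, P.H.Adj a x → x = u := fun x hx =>
    C.rb.1 ((P.nbr_pend2 C.rb hi hx).trans C.hu.symm)
  obtain ⟨x, hx⟩ := P.exists_nbr C.ok a
  have h2 := h1 x hx
  subst h2
  exact ⟨hx.symm, h1⟩

theorem pd_lf : pd f ⊆ lf P.H u := by
  intro a ha
  obtain ⟨h1, h2⟩ := C.pdL ha
  rw [mem_lf]
  refine ⟨h1, ?_⟩
  rw [Finset.card_eq_one]
  refine ⟨u, ?_⟩
  ext x
  rw [mem_nb, Finset.mem_singleton]
  constructor
  · exact h2 x
  · rintro rfl
    exact h1.symm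

theorem card_EA : (ed P.H).card ≤ (P.EA f).card + (pd f).card := by
  classical
  have h1 : ed P.H ⊆ P.EA f ∪ (pd f).image (fun a => s(u, a)) := by
    intro e he
    rw [mem_ed] at he
    induction e using Sym2.ind with
    | h a b =>
      have he' : P.H.Adj a b := he
      rw [Finset.mem_union, mem_EA, Finset.mem_image]
      by_cases ha : a ∈ pd f
      · right
        refine ⟨a, ha, ?_⟩
        rw [(C.pdL ha).2 b he', Sym2.eq_swap]
      · by_cases hb : b ∈ pd f
        · right
          refine ⟨b, hb, ?_⟩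
          rw [(C.pdL hb).2 a he'.symm]
        · exact Or.inl ⟨he', ha, hb⟩
  refine (Finset.card_le_card h1).trans ((Finset.card_union_le _ _).trans ?_)
  exact Nat.add_le_add_left Finset.card_image_le _

/-- many pendant vertices -/
theorem card_pd : (lf P.H P.w).card + 1 ≤ (pd f).card := by
  classical
  have h1 := C.card_EA
  have h2 := P.card_EH C.ok
  have h3 : (P.EA f).card ≤ (insert 0 (P.EH.image beta)).card := by
    refine Finset.card_le_card_of_injOn (fun e => P.chi2 m (e.map f)) ?_ ?_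
    · intro e he
      induction e using Sym2.ind with
      | h a b =>
        rw [Finset.mem_coe, mem_EA] at he
        rw [Finset.mem_coe, Finset.mem_insert, Finset.mem_image]
        simp only []
        rcases C.edge he.2.1 he.2.2 he.1 with ⟨h4, j, h5⟩ | ⟨h5, _⟩
        · have h6 : P.chi2 m (Sym2.map f s(a, b)) = P.col j s(P.pos (f a), P.pos (f b)) := h5
          rw [h6]
          unfold col
          split_ifs with h7
          · exact Or.inl rfl
          · right
            exact ⟨_, P.mem_EH.2 ⟨h4, C.pos_mem he.2.1, C.pos_mem he.2.2⟩, rfl⟩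
        · left
          exact h5
    · intro e he e' he' h
      have hsub : P.EA f ⊆ ed P.H := by
        unfold EA
        exact Finset.filter_subset _ _
      exact C.rb.2.2 e (mem_ed.1 (hsub he)) e' (mem_ed.1 (hsub he')) h
  have h4 := Finset.card_insert_le 0 (P.EH.image beta)
  have h5 : (P.EH.image beta).card ≤ P.EH.card := Finset.card_image_le
  omega

theorem u_ne_w : u ≠ P.w := by
  intro h
  have h1 := C.card_pd
  have h2 := Finset.card_le_card C.pd_lf
  rw [h] at h2
  omega

theorem lf_lt : (lf P.H P.w).card < (lf P.H u).card := by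
  have h1 := C.card_pd
  have h2 := Finset.card_le_card C.pd_lf
  omega

end Cq

/-- `u` is not a cut vertex of the graph without the leaves at `u` -/
def NonCut (H : SimpleGraph (Fin k)) (u : Fin k) : Prop :=
  ∀ x y, x ≠ u → y ≠ u → x ∉ lf H u → y ∉ lf H u →
    Relation.ReflTransGen (fun a b => H.Adj a b ∧ a ≠ u ∧ b ≠ u) x y

theorem free2 (hO : P.Ok)
    (hG : ∀ u, u ≠ P.w → (lf P.H P.w).card < (lf P.H u).card → NonCut P.H u) :
    ¬ Rb P.H (P.G2 m) (P.chi2 m) := by
  classical
  rintro ⟨f, hf⟩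
  obtain ⟨a, i, hai⟩ := P.exists_pend2 hO hf
  obtain ⟨u, hu⟩ := P.exists_nbr hO a
  have C : Cq P m f u := ⟨hO, hf, P.nbr_pend2 hf hai hu⟩
  have hnc := hG u C.u_ne_w C.lf_lt
  have hnw : 1 < (nb P.H P.w).card := hO.nlw
  have hnv : 1 < (nb P.H P.v).card :=
    Fold.nl_iff.2 ⟨P.w, P.l, hO.adj_wv.symm, hO.adj_vl, hO.wl⟩
  have hnlf : ∀ x, 1 < (nb P.H x).card → x ∉ lf P.H u := by
    intro x hx h
    have := (mem_lf.1 h).2
    omega
  have hwu : P.w ≠ u := Ne.symm C.u_ne_w
  have hpd : ∀ x, x ∉ lf P.H u → x ∉ pd f := fun x hx h => hx (C.pd_lf h)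
  -- all in one petal
  obtain ⟨j0, b0, hwY, hfw⟩ : ∃ j b, P.isY (P.pos (f P.w)) ∧
      f P.w = Sum.inr (Core.pet j b (P.pos (f P.w))) := by
    rcases C.cases (hpd _ (hnlf _ hnw)) with h | h
    · exact absurd h hwu
    · exact h
  have hpet : ∀ x, x ≠ u → x ∉ lf P.H u → P.isY (P.pos (f x)) ∧
      f x = Sum.inr (Core.pet j0 b0 (P.pos (f x))) := by
    intro x hxu hxl
    have h1 := hnc P.w x hwu hxu (hnlf _ hnw) hxl
    clear hxl hxu
    induction h1 with
    | refl => exact ⟨hwY, hfw⟩
    | @tail x z _ hxz ih =>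
      have hz : z ∉ pd f := fun h => hxz.2.1 ((C.pdL h).2 x hxz.1.symm)
      rcases C.cases hz with h | ⟨j, b, h2, h3⟩
      · exact absurd h hxz.2.2
      · refine ⟨h2, ?_⟩
        have h4 := C.rb.2.1 x z hxz.1
        rw [ih.2, h3] at h4
        have h5 : j0 = j ∧ b0 = b ∧ _ := h4
        rw [h3]
        show Sum.inr (Core.pet j b _) = Sum.inr (Core.pet j0 b0 _)
        rw [h5.1, h5.2.1]
        rfl
  have hinj : ∀ x y, (x = u ∨ x ∉ lf P.H u) → (y = u ∨ y ∉ lf P.H u) →
      P.pos (f x) = P.pos (f y) → x = y := by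
    intro x y hx hy h
    by_cases hxu : x = u
    · by_cases hyu : y = u
      · rw [hxu, hyu]
      · have h1 := hpet y hyu (hy.resolve_left hyu)
        rw [hxu, C.pos_u] at h
        exact absurd h.symm h1.1.1
    · by_cases hyu : y = u
      · have h1 := hpet x hxu (hx.resolve_left hxu)
        rw [hyu, C.pos_u] at h
        exact absurd h h1.1.1
      · have h1 := hpet x hxu (hx.resolve_left hxu)
        have h2 := hpet y hyu (hy.resolve_left hyu)
        apply C.rb.1
        rw [h1.2, h2.2, h]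
  have hnl : ∀ x, 1 < (nb P.H x).card → 1 < (nb P.H (P.pos (f x))).card := by
    intro x hx
    by_cases hxu : x = u
    · rw [hxu, C.pos_u]
      exact hnw
    · have hxl := hnlf x hx
      obtain ⟨y, y', hy, hy', hne⟩ := Fold.nl_iff.1 hx
      have hgood : ∀ z, P.H.Adj x z → z = u ∨ z ∉ lf P.H u := by
        intro z hz
        right
        intro h
        have h1 := (mem_lf.1 h)
        exact hxu (Fold.leaf_unique (by omega) hz.symm h1.1.symm)
      have hzpd : ∀ z, P.H.Adj x z → z ∉ pd f := fun z hz h => hxu ((C.pdL h).2 x hz.symm)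
      have key : ∀ z, P.H.Adj x z → P.H.Adj (P.pos (f x)) (P.pos (f z)) ∨
          1 < (nb P.H (P.pos (f x))).card := by
        intro z hz
        rcases C.edge (hpd x hxl) (hzpd z hz) hz with ⟨h1, _⟩ | ⟨_, ⟨h1, _⟩ | ⟨_, h1⟩⟩
        · exact Or.inl h1
        · exact absurd h1 hxu
        · exact Or.inr h1
      rcases key y hy with h1 | h1
      · rcases key y' hy' with h2 | h2
        · exact Fold.nl_iff.2 ⟨_, _, h1, h2, fun h3 => hne (hinj y y' (hgood y hy)
            (hgood y' hy') h3)⟩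
        · exact h2
      · exact h1
  -- pigeonhole
  set V' : Finset (Fin k) := Finset.univ.filter (fun x => 1 < (nb P.H x).card) with hV'
  have hvV : P.v ∈ V' := Finset.mem_filter.2 ⟨Finset.mem_univ _, hnv⟩
  have h1 : V'.card ≤ (V'.erase P.v).card := by
    refine Finset.card_le_card_of_injOn (fun x => P.pos (f x)) ?_ ?_
    · intro x hx
      rw [Finset.mem_coe, hV', Finset.mem_filter] at hx
      rw [Finset.mem_coe, Finset.mem_erase, hV', Finset.mem_filter]
      refine ⟨?_, Finset.mem_univ _, hnl x hx.2⟩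
      exact (P.mem_Zs.1 (C.pos_mem (hpd x (hnlf x hx.2)))).1
    · intro x hx y hy h
      rw [Finset.mem_coe, hV', Finset.mem_filter] at hx hy
      exact hinj x y (Or.inr (hnlf x hx.2)) (Or.inr (hnlf y hy.2)) h
  have h2 := Finset.card_erase_add_one hvV
  omega

end copy

end Pat

end Pool.Agent.Helper3.RT
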