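import Pool.Agent.Helper3.RT.Constr

/-! Rainbow saturation of graphs with a pendant path: no rainbow copy (MP_e4665f_co). -/

set_option autoImplicit false

namespace Pool.Agent.Helper3.RT

open SimpleGraph Pool.Agent.Helper28.RS

/-- the set of edges -/
noncomputable def ed {V : Type*} [Fintype V] [DecidableEq V] (H : SimpleGraph V) :
    Finset (Sym2 V) := by
  classical exact Finset.univ.filter (fun e => e ∈ H.edgeSet)

theorem mem_ed {V : Type*} [Fintype V] [DecidableEq V] {H : SimpleGraph V} {e : Sym2 V} :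
    e ∈ ed H ↔ e ∈ H.edgeSet := by
  classical
  simp [ed]

variable {k : ℕ}

namespace Pat

variable (P : Pat k)

theorem exists_nbr (hO : P.Ok) (x : Fin k) : ∃ y, P.H.Adj x y := by
  by_cases hx : x = P.w
  · exact ⟨P.v, hx ▸ hO.adj_wv⟩
  · have h := Fold.nb_pos hO.conn hx
    rw [Finset.card_pos] at h
    obtain ⟨y, hy⟩ := h
    exact ⟨y, mem_nb.1 hy⟩

/-- the colours of the bounded part -/
noncomputable def S0 : Finset ℕ :=
  ((ed P.H).erase s(P.v, P.l)).image (fun e => if e = s(P.w, P.v) then 0 else beta e)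

theorem wv_mem (hO : P.Ok) : s(P.w, P.v) ∈ (ed P.H).erase s(P.v, P.l) := by
  rw [Finset.mem_erase, mem_ed]
  refine ⟨?_, hO.adj_wv⟩
  intro h
  rw [Sym2.eq_swap, Sym2.congr_right] at h
  exact hO.wl h

theorem zero_mem_S0 (hO : P.Ok) : 0 ∈ P.S0 := by
  unfold S0
  rw [Finset.mem_image]
  exact ⟨_, P.wv_mem hO, if_pos rfl⟩

theorem col_mem_S0 (hO : P.Ok) {e : Sym2 (Fin k)} (he : e ∈ (ed P.H).erase s(P.v, P.l))
    (j : Option (Sym2 (Fin k))) : P.col j e ∈ P.S0 := by
  unfold col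
  split_ifs with h
  · exact P.zero_mem_S0 hO
  · unfold S0
    rw [Finset.mem_image]
    exact ⟨e, he, if_neg (fun h2 => h (Or.inl h2))⟩

theorem mem_erase_of {a b : Fin k} (h : P.H.Adj a b) (hne : s(a, b) ≠ s(P.v, P.l)) :
    s(a, b) ∈ (ed P.H).erase s(P.v, P.l) := by
  rw [Finset.mem_erase, mem_ed]
  exact ⟨hne, h⟩

theorem w_ne (hO : P.Ok) (a : Fin k) : s(P.w, a) ≠ s(P.v, P.l) := by
  intro h
  rw [Sym2.eq_iff] at h
  rcases h with ⟨h, _⟩ | ⟨h, _⟩
  · exact hO.adj_wv.ne h
  · exact hO.wl h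

theorem Y_ne {y y' : Fin k} (hy : P.isY y) : s(y, y') ≠ s(P.v, P.l) := by
  intro h
  rw [Sym2.eq_iff] at h
  rcases h with ⟨h, _⟩ | ⟨h, _⟩
  · exact hy.2.1 h
  · exact hy.2.2.1 h

theorem entcol_mem_S0 (hO : P.Ok) (j : Option (Sym2 (Fin k))) (y : Fin k) :
    P.entcol j y ∈ P.S0 := by
  classical
  unfold entcol
  split_ifs with h
  · exact P.col_mem_S0 hO (P.mem_erase_of h.2.choose_spec.1 (P.w_ne hO _)) j
  · exact P.zero_mem_S0 hO

theorem ccol_mem_S0 (hO : P.Ok) {c c' : Core k} (h : P.cadj c c') : P.ccol c c' ∈ P.S0 := by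
  cases c <;> cases c' <;> simp only [cadj, ccol] at h ⊢
  · exact P.col_mem_S0 hO (P.mem_erase_of h.2 (P.w_ne hO _)) _
  · exact P.col_mem_S0 hO (P.mem_erase_of h.2 (P.w_ne hO _)) _
  · obtain ⟨h1, h2, h3, h4, h5⟩ := h
    rw [if_pos h1]
    exact P.col_mem_S0 hO (P.mem_erase_of h5 (P.Y_ne h3)) _
  · exact P.entcol_mem_S0 hO _ _
  · exact P.entcol_mem_S0 hO _ _
  · obtain ⟨j, a, b, h⟩ := h
    rw [P.cubecol_eq h]
    exact P.col_mem_S0 hO (P.mem_erase_of h.1 h.2.1) _

theorem card_S0 (hO : P.Ok) : P.S0.card < (ed P.H).card := by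
  have h1 : P.S0.card ≤ ((ed P.H).erase s(P.v, P.l)).card := Finset.card_image_le
  have h2 : s(P.v, P.l) ∈ ed P.H := mem_ed.2 hO.adj_vl
  have h3 := Finset.card_erase_add_one h2
  omega

section copy

variable {m : ℕ} {f : Fin k → Fin m ⊕ Core k}

theorem rbpair (hf : IsRb P.H (P.G m) (P.chi m) f) {a b c d : Fin k} (h1 : P.H.Adj a b)
    (h2 : P.H.Adj c d) (h : P.vcol m (f a) (f b) = P.vcol m (f c) (f d)) : s(a, b) = s(c, d) := by
  apply hf.2.2 s(a, b) h1 s(c, d) h2
  rw [Sym2.map_mk, Sym2.map_mk]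
  exact h

/-- a copy uses a pendant vertex -/
theorem exists_pend (hO : P.Ok) (hf : IsRb P.H (P.G m) (P.chi m) f) : ∃ a i, f a = Sum.inl i := by
  classical
  by_contra hcon
  push Not at hcon
  have hc : ∀ x, ∃ c, f x = Sum.inr c := by
    intro x
    rcases hx : f x with i | c
    · exact absurd hx (hcon x i)
    · exact ⟨c, rfl⟩
  have h1 : (ed P.H).card ≤ P.S0.card := by
    refine Finset.card_le_card_of_injOn (fun e => P.chi m (e.map f)) ?_ ?_
    · intro e he
      rw [Finset.mem_coe, mem_ed] at he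
      induction e using Sym2.ind with
      | h a b =>
        obtain ⟨c, hca⟩ := hc a
        obtain ⟨d, hdb⟩ := hc b
        have h2 := hf.2.1 a b he
        have h3 : P.cadj c d := by
          rw [hca, hdb] at h2
          exact h2
        have h4 : P.chi m (Sym2.map f s(a, b)) = P.ccol c d := by
          rw [Sym2.map_mk, hca, hdb]
          rfl
        rw [Finset.mem_coe]
        simp only []
        rw [h4]
        exact P.ccol_mem_S0 hO h3
    · intro e he e' he' h
      rw [Finset.mem_coe, mem_ed] at he he'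
      exact hf.2.2 e he e' he' h
  have h2 := P.card_S0 hO
  omega

theorem nbr_pend (hf : IsRb P.H (P.G m) (P.chi m) f) {a x : Fin k} {i : Fin m}
    (ha : f a = Sum.inl i) (h : P.H.Adj a x) : f x = Sum.inr Core.hub := by
  have h1 := hf.2.1 a x h
  rw [ha] at h1
  rcases hx : f x with j | c
  · rw [hx] at h1
    exact absurd h1 id
  · rw [hx] at h1
    have h2 : c = Core.hub := h1
    rw [h2]

/-- the shape of a copy -/
theorem shape (hO : P.Ok) (hB : P.Bri) (hf : IsRb P.H (P.G m) (P.chi m) f) {u : Fin k}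
    (hu : f u = Sum.inr Core.hub) (x : Fin k) : x = u ∨ (∃ i, f x = Sum.inl i) ∨
    (∃ j b y a a', P.isY y ∧ f x = Sum.inr (Core.pet j b y) ∧ P.H.Adj u a ∧
      P.vcol m (f u) (f a) = P.col j s(P.w, a') ∧ P.H.Adj P.w a' ∧ P.H0.Reachable a' y) := by
  have hr := hO.conn.preconnected u x
  rw [SimpleGraph.reachable_iff_reflTransGen] at hr
  induction hr with
  | refl => exact Or.inl rfl
  | @tail x z _ hxz ih =>
    rcases ih with rfl | ⟨i, hi⟩ | ⟨j, b, y, a, a', hy, hx, hua, hcol, hwa, hrea⟩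
    · have h1 := hf.2.1 _ _ hxz
      rw [hu] at h1
      rcases hz : f z with i | c
      · exact Or.inr (Or.inl ⟨i, rfl⟩)
      · rw [hz] at h1
        have h2 : P.cadj Core.hub c := h1
        cases c with
        | hub => exact absurd h2 id
        | pet j b y =>
          refine Or.inr (Or.inr ⟨j, b, y, z, y, h2.1, rfl, hxz, ?_, h2.2,
            SimpleGraph.Reachable.refl _⟩)
          rw [hu, hz]
          rfl
        | cube s => exact absurd h2 id
    · left
      exact hf.1 ((P.nbr_pend hf hi hxz).trans hu.symm)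
    · have h1 := hf.2.1 _ _ hxz
      rw [hx] at h1
      rcases hz : f z with i | c
      · exact Or.inr (Or.inl ⟨i, rfl⟩)
      · rw [hz] at h1
        have h2 : P.cadj (Core.pet j b y) c := h1
        cases c with
        | hub => exact Or.inl (hf.1 (hz.trans hu.symm))
        | pet j' b' y' =>
          obtain ⟨h3, h4, h5, h6, h7⟩ := h2
          subst h3
          refine Or.inr (Or.inr ⟨j, b', y', a, a', h6, rfl, hua, hcol, hwa, hrea.trans ?_⟩)
          exact (SimpleGraph.Adj.reachable ⟨h7, h5.1, h6.1⟩)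
        | cube s =>
          exfalso
          have h3 : P.vcol m (f x) (f z) = P.vcol m (f u) (f a) := by
            rw [hcol, hx, hz, ← P.entcol_eq hB hy hwa hrea]
            rfl
          have h4 := P.rbpair hf hxz hua h3
          rw [Sym2.eq_iff] at h4
          rcases h4 with ⟨h4, _⟩ | ⟨_, h4⟩
          · rw [h4, hu] at hx
            cases hx
          · rw [h4, hu] at hz
            cases hz

/-- the position of a vertex -/
def pos (P : Pat k) {m : ℕ} (c : Fin m ⊕ Core k) : Fin k :=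
  match c with
  | Sum.inr (Core.pet _ _ y) => y
  | _ => P.w

/-- vertices of the copy on pendant vertices -/
noncomputable def pd {m : ℕ} (f : Fin k → Fin m ⊕ Core k) : Finset (Fin k) := by
  classical exact Finset.univ.filter (fun a => ∃ i, f a = Sum.inl i)

theorem mem_pd {a : Fin k} : a ∈ pd f ↔ ∃ i, f a = Sum.inl i := by
  classical
  simp [pd]

/-- positions of the petals and of the hub -/
noncomputable def Zs : Finset (Fin k) := Finset.univ \ ({P.v, P.l} ∪ lf P.H P.w)

theorem mem_Zs {x : Fin k} : x ∈ P.Zs ↔ x ≠ P.v ∧ x ≠ P.l ∧ x ∉ lf P.H P.w := by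
  unfold Zs
  rw [Finset.mem_sdiff, Finset.mem_union, Finset.mem_insert, Finset.mem_singleton]
  constructor
  · rintro ⟨_, h⟩
    refine ⟨fun h1 => h (Or.inl (Or.inl h1)), fun h1 => h (Or.inl (Or.inr h1)),
      fun h1 => h (Or.inr h1)⟩
  · rintro ⟨h1, h2, h3⟩
    refine ⟨Finset.mem_univ _, ?_⟩
    rintro ((h | h) | h)
    · exact h1 h
    · exact h2 h
    · exact h3 h

theorem w_notlf : P.w ∉ lf P.H P.w := fun h => (mem_lf.1 h).1.ne rfl

theorem w_mem_Zs (hO : P.Ok) : P.w ∈ P.Zs :=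
  P.mem_Zs.2 ⟨hO.adj_wv.ne, hO.wl, P.w_notlf⟩

theorem Y_mem_Zs {y : Fin k} (h : P.isY y) : y ∈ P.Zs := P.mem_Zs.2 ⟨h.2.1, h.2.2.1, h.2.2.2⟩

/-- edges of the copy between positions -/
noncomputable def EA (f : Fin k → Fin m ⊕ Core k) : Finset (Sym2 (Fin k)) := by
  classical exact (ed P.H).filter (fun e => ∀ x ∈ e, x ∉ pd f)

/-- edges between positions -/
noncomputable def EH : Finset (Sym2 (Fin k)) := by
  classical exact (ed P.H).filter (fun e => ∀ x ∈ e, x ∈ P.Zs)

theorem mem_EA {a b : Fin k} : s(a, b) ∈ P.EA f ↔ P.H.Adj a b ∧ a ∉ pd f ∧ b ∉ pd f := by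
  classical
  simp [EA, mem_ed]

theorem mem_EH {a b : Fin k} : s(a, b) ∈ P.EH ↔ P.H.Adj a b ∧ a ∈ P.Zs ∧ b ∈ P.Zs := by
  classical
  simp [EH, mem_ed]

/-- the structure of a copy through the hub -/
structure Cp (P : Pat k) (m : ℕ) (f : Fin k → Fin m ⊕ Core k) (u : Fin k) : Prop where
  ok : P.Ok
  bri : P.Bri
  rb : IsRb P.H (P.G m) (P.chi m) f
  hu : f u = Sum.inr Core.hub

namespace Cp

variable {P} {u : Fin k} (C : Cp P m f u)

include C

theorem upd : u ∉ pd f := by
  rw [mem_pd]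
  rintro ⟨i, h⟩
  rw [C.hu] at h
  cases h

theorem cases {x : Fin k} (hx : x ∉ pd f) : x = u ∨ ∃ j b, P.isY (P.pos (f x)) ∧
    f x = Sum.inr (Core.pet j b (P.pos (f x))) := by
  rcases P.shape C.ok C.bri C.rb C.hu x with h | h | ⟨j, b, y, _, _, hy, h, _⟩
  · exact Or.inl h
  · exact absurd (mem_pd.2 h) hx
  · right
    refine ⟨j, b, ?_⟩
    rw [h]
    exact ⟨hy, rfl⟩

theorem pos_u : P.pos (f u) = P.w := by
  rw [C.hu]
  rfl

theorem pos_w {x : Fin k} (hx : x ∉ pd f) (h : P.pos (f x) = P.w) : x = u := by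
  rcases C.cases hx with h1 | ⟨j, b, hy, h1⟩
  · exact h1
  · exact absurd h hy.1

theorem pos_mem {x : Fin k} (hx : x ∉ pd f) : P.pos (f x) ∈ P.Zs := by
  rcases C.cases hx with h1 | ⟨j, b, hy, h1⟩
  · rw [h1, C.pos_u]
    exact P.w_mem_Zs C.ok
  · exact P.Y_mem_Zs hy

/-- adjacency of positions and colours -/
theorem edge {x y : Fin k} (hx : x ∉ pd f) (hy : y ∉ pd f) (h : P.H.Adj x y) :
    P.H.Adj (P.pos (f x)) (P.pos (f y)) ∧
      ∃ j, P.vcol m (f x) (f y) = P.col j s(P.pos (f x), P.pos (f y)) := by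
  have h1 := C.rb.2.1 x y h
  rcases C.cases hx with hx1 | ⟨j, b, hx1, hx2⟩
  · rcases C.cases hy with hy1 | ⟨j', b', hy1, hy2⟩
    · exact absurd (hx1.trans hy1.symm) h.ne
    · subst hx1
      rw [C.hu, hy2] at h1
      have h2 : P.isY _ ∧ P.H.Adj P.w _ := h1
      rw [C.pos_u]
      refine ⟨h2.2, j', ?_⟩
      rw [C.hu, hy2]
      rfl
  · rcases C.cases hy with hy1 | ⟨j', b', hy1, hy2⟩
    · subst hy1
      rw [C.hu, hx2] at h1
      have h2 : P.isY _ ∧ P.H.Adj P.w _ := h1
      rw [C.pos_u]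
      refine ⟨h2.2.symm, j, ?_⟩
      rw [C.hu, hx2, Sym2.eq_swap]
      rfl
    · rw [hx2, hy2] at h1
      have h2 : j = j' ∧ b = b' ∧ P.isY _ ∧ P.isY _ ∧ P.H.Adj _ _ := h1
      refine ⟨h2.2.2.2.2, j, ?_⟩
      rw [hx2, hy2]
      exact if_pos h2.1

theorem pdL {a : Fin k} (ha : a ∈ pd f) : P.H.Adj u a ∧ ∀ x, P.H.Adj a x → x = u := by
  obtain ⟨i, hi⟩ := mem_pd.1 ha
  have h1 : ∀ x, P.H.Adj a x → x = u := fun x hx =>
    C.rb.1 ((P.nbr_pend C.rb hi hx).trans C.hu.symm)
  obtain ⟨x, hx⟩ := P.exists_nbr C.ok a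
  have h2 := h1 x hx
  subst h2
  exact ⟨hx.symm, h1⟩

theorem pd_lf : pd f ⊆ lf P.H u := by
  intro a ha
  obtain ⟨h1, h2⟩ := C.pdL ha
  rw [mem_lf]
  refine ⟨h1, ?_⟩
  rw [Finset.card_eq_one]
  refine ⟨u, ?_⟩
  ext x
  rw [mem_nb, Finset.mem_singleton]
  constructor
  · exact h2 x
  · rintro rfl
    exact h1.symm

theorem card_EA : (ed P.H).card ≤ (P.EA f).card + (pd f).card := by
  classical
  have h1 : ed P.H ⊆ P.EA f ∪ (pd f).image (fun a => s(u, a)) := by
    intro e he
    rw [mem_ed] at he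
    induction e using Sym2.ind with
    | h a b =>
      have he' : P.H.Adj a b := he
      rw [Finset.mem_union, mem_EA, Finset.mem_image]
      by_cases ha : a ∈ pd f
      · right
        refine ⟨a, ha, ?_⟩
        rw [(C.pdL ha).2 b he', Sym2.eq_swap]
      · by_cases hb : b ∈ pd f
        · right
          refine ⟨b, hb, ?_⟩
          rw [(C.pdL hb).2 a he'.symm]
        · exact Or.inl ⟨he', ha, hb⟩
  refine (Finset.card_le_card h1).trans ((Finset.card_union_le _ _).trans ?_)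
  exact Nat.add_le_add_left Finset.card_image_le _

end Cp

theorem NN_card (hO : P.Ok) : (({P.v, P.l} : Finset (Fin k)) ∪ lf P.H P.w).card =
    2 + (lf P.H P.w).card := by
  have hv : P.v ∉ lf P.H P.w := by
    intro h
    have h1 := (mem_lf.1 h).2
    have h2 : 1 < (nb P.H P.v).card := Fold.nl_iff.2 ⟨P.w, P.l, hO.adj_wv.symm, hO.adj_vl, hO.wl⟩
    omega
  have hl : P.l ∉ lf P.H P.w := by
    intro h
    have h1 := (mem_lf.1 h).1
    exact hO.adj_wv.ne (hO.nl _ h1.symm)
  rw [Finset.card_union_of_disjoint, Finset.card_pair hO.adj_vl.ne]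
  rw [Finset.disjoint_left]
  intro a ha
  rw [Finset.mem_insert, Finset.mem_singleton] at ha
  rcases ha with rfl | rfl
  · exact hv
  · exact hl

theorem card_Zs (hO : P.Ok) : P.Zs.card + 2 + (lf P.H P.w).card = k := by
  have h1 := P.NN_card hO
  have h2 : P.Zs.card + (({P.v, P.l} : Finset (Fin k)) ∪ lf P.H P.w).card = k := by
    unfold Zs
    rw [Finset.card_sdiff_add_card_eq_card (Finset.subset_univ _), Finset.card_univ,
      Fintype.card_fin]
  omega

theorem card_EH (hO : P.Ok) : P.EH.card + 2 + (lf P.H P.w).card ≤ (ed P.H).card := by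
  classical
  have h1 := P.NN_card hO
  have hsub : P.EH ⊆ ed P.H := by
    unfold EH
    exact Finset.filter_subset _ _
  have h2 : (({P.v, P.l} : Finset (Fin k)) ∪ lf P.H P.w).card ≤ (ed P.H \ P.EH).card := by
    refine Finset.card_le_card_of_injOn
      (fun x => if x = P.l then s(P.v, P.l) else s(P.w, x)) ?_ ?_
    · intro x hx
      rw [Finset.mem_coe, Finset.mem_union, Finset.mem_insert, Finset.mem_singleton] at hx
      rw [Finset.mem_coe, Finset.mem_sdiff]
      simp only []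
      split_ifs with hxl
      · refine ⟨mem_ed.2 hO.adj_vl, ?_⟩
        rw [mem_EH, P.mem_Zs, P.mem_Zs]
        rintro ⟨_, h, _⟩
        exact h.1 rfl
      · rcases hx with (rfl | rfl) | hx
        · refine ⟨mem_ed.2 hO.adj_wv, ?_⟩
          rw [mem_EH, P.mem_Zs, P.mem_Zs]
          rintro ⟨_, _, h⟩
          exact h.1 rfl
        · exact absurd rfl hxl
        · refine ⟨mem_ed.2 (mem_lf.1 hx).1, ?_⟩
          rw [mem_EH, P.mem_Zs, P.mem_Zs]
          rintro ⟨_, _, h⟩
          exact h.2.2 hx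
    · intro x _ y _ h
      simp only [] at h
      split_ifs at h with h1 h2 h2
      · rw [h1, h2]
      · exact absurd h.symm (P.w_ne hO _)
      · exact absurd h (P.w_ne hO _)
      · rwa [Sym2.congr_right] at h
  have h3 := Finset.card_sdiff_add_card_eq_card hsub
  omega

namespace Cp

variable {P} {u : Fin k} (C : Cp P m f u)

include C

/-- many pendant vertices -/
theorem card_pd : (lf P.H P.w).card + 1 ≤ (pd f).card := by
  classical
  have h1 := C.card_EA
  have h2 := P.card_EH C.ok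
  have h3 : (P.EA f).card ≤ (insert 0 (P.EH.image beta)).card := by
    refine Finset.card_le_card_of_injOn (fun e => P.chi m (e.map f)) ?_ ?_
    · intro e he
      induction e using Sym2.ind with
      | h a b =>
        rw [Finset.mem_coe, mem_EA] at he
        obtain ⟨h4, j, h5⟩ := C.edge he.2.1 he.2.2 he.1
        rw [Finset.mem_coe, Finset.mem_insert, Finset.mem_image]
        have h6 : P.chi m (Sym2.map f s(a, b)) = P.col j s(P.pos (f a), P.pos (f b)) := h5
        simp only []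
        rw [h6]
        unfold col
        split_ifs with h7
        · exact Or.inl rfl
        · right
          exact ⟨_, P.mem_EH.2 ⟨h4, C.pos_mem he.2.1, C.pos_mem he.2.2⟩, rfl⟩
    · intro e he e' he' h
      have hsub : P.EA f ⊆ ed P.H := by
        unfold EA
        exact Finset.filter_subset _ _
      exact C.rb.2.2 e (mem_ed.1 (hsub he)) e' (mem_ed.1 (hsub he')) h
  have h4 := Finset.card_insert_le 0 (P.EH.image beta)
  have h5 : (P.EH.image beta).card ≤ P.EH.card := Finset.card_image_le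
  omega

theorem u_ne_w : u ≠ P.w := by
  intro h
  have h1 := C.card_pd
  have h2 := Finset.card_le_card C.pd_lf
  rw [h] at h2
  omega

/-- two edges with the same position -/
theorem edge_coll {a b c d : Fin k} (h1 : s(a, b) ∈ P.EA f) (h2 : s(c, d) ∈ P.EA f)
    (h : s(P.pos (f a), P.pos (f b)) = s(P.pos (f c), P.pos (f d)))
    (hne1 : P.vcol m (f a) (f b) ≠ 0) (hne2 : P.vcol m (f c) (f d) ≠ 0) :
    s(a, b) = s(c, d) := by
  rw [mem_EA] at h1 h2
  obtain ⟨_, j1, h3⟩ := C.edge h1.2.1 h1.2.2 h1.1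
  obtain ⟨_, j2, h4⟩ := C.edge h2.2.1 h2.2.2 h2.1
  apply P.rbpair C.rb h1.1 h2.1
  rw [h3] at hne1 ⊢
  rw [h4] at hne2 ⊢
  rw [h] at hne1 ⊢
  unfold col at hne1 hne2 ⊢
  split_ifs at hne1 with h5
  · exact absurd rfl hne1
  · split_ifs at hne2 with h6
    · exact absurd rfl hne2
    · rw [if_neg h5, if_neg h6]

end Cp

end copy

end Pat

end Pool.Agent.Helper3.RT
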