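import Pool.Agent.Helper3.RT.Free

/-! Rainbow saturation of graphs with a pendant path: coincidences of positions (MP_e4665f_co). -/

set_option autoImplicit false

namespace Pool.Agent.Helper3.RT

open SimpleGraph Pool.Agent.Helper28.RS

variable {k : ℕ}

namespace Pat

variable (P : Pat k)

theorem exists_next (hO : P.Ok) {x : Fin k} (hx : x ∈ P.Zs) (hxw : x ≠ P.w) :
    ∃ y, P.H.Adj x y ∧ y ∈ P.Zs ∧ P.H.dist y P.w < P.H.dist x P.w := by
  obtain ⟨p, hp⟩ := hO.conn.exists_walk_length_eq_dist x P.w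
  cases p with
  | nil => exact absurd rfl hxw
  | @cons _ y _ h q =>
    refine ⟨y, h, ?_, ?_⟩
    · rw [P.mem_Zs] at hx ⊢
      refine ⟨?_, ?_, ?_⟩
      · rintro rfl
        rcases hO.nv x h.symm with h1 | h1
        · exact hxw h1
        · exact hx.2.1 h1
      · rintro rfl
        exact hx.1 (hO.nl x h.symm)
      · intro h1
        rw [mem_lf] at h1
        exact hxw (Fold.leaf_unique (by omega) h.symm h1.1.symm)
    · rw [← hp, Walk.length_cons]
      exact Nat.lt_succ_of_le (SimpleGraph.dist_le q)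

section copy

variable {m : ℕ} {f : Fin k → Fin m ⊕ Core k}

/-- the images of the edges -/
noncomputable def IE (P : Pat k) {m : ℕ} (f : Fin k → Fin m ⊕ Core k) : Finset (Sym2 (Fin k)) :=
  (P.EA f).image (Sym2.map fun x => P.pos (f x))

/-- the images of the vertices -/
noncomputable def IV (P : Pat k) {m : ℕ} (f : Fin k → Fin m ⊕ Core k) : Finset (Fin k) :=
  (Finset.univ \ pd f).image fun x => P.pos (f x)

namespace Cp

variable {P} {u : Fin k} (C : Cp P m f u)

include C

theorem card_IE : (P.EA f).card ≤ (P.IE f).card + 1 := by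
  classical
  have h1 : ((P.EA f).filter (fun e => P.chi m (e.map f) = 0)).card ≤ 1 := by
    rw [Finset.card_le_one]
    intro e he e' he'
    rw [Finset.mem_filter] at he he'
    have hsub : P.EA f ⊆ ed P.H := by
      unfold EA
      exact Finset.filter_subset _ _
    exact C.rb.2.2 e (mem_ed.1 (hsub he.1)) e' (mem_ed.1 (hsub he'.1)) (he.2.trans he'.2.symm)
  have h2 : ((P.EA f).filter (fun e => ¬ P.chi m (e.map f) = 0)).card ≤ (P.IE f).card := by
    refine Finset.card_le_card_of_injOn (Sym2.map fun x => P.pos (f x)) ?_ ?_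
    · intro e he
      rw [Finset.mem_coe, Finset.mem_filter] at he
      exact Finset.mem_image_of_mem _ he.1
    · intro e he e' he' h
      rw [Finset.mem_coe, Finset.mem_filter] at he he'
      induction e using Sym2.ind with
      | h a b =>
        induction e' using Sym2.ind with
        | h c d =>
          exact C.edge_coll he.1 he'.1 h he.2 he'.2
  have h3 := Finset.card_filter_add_card_filter_not (s := P.EA f)
    (fun e => P.chi m (e.map f) = 0)
  omega

theorem IV_sub : P.IV f ⊆ P.Zs := by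
  intro y hy
  unfold IV at hy
  rw [Finset.mem_image] at hy
  obtain ⟨x, hx, rfl⟩ := hy
  rw [Finset.mem_sdiff] at hx
  exact C.pos_mem hx.2

theorem IE_sub : P.IE f ⊆ P.EH := by
  intro e he
  unfold IE at he
  rw [Finset.mem_image] at he
  obtain ⟨e', he', rfl⟩ := he
  induction e' using Sym2.ind with
  | h a b =>
    rw [mem_EA] at he'
    rw [Sym2.map_mk, mem_EH]
    exact ⟨(C.edge he'.2.1 he'.2.2 he'.1).1, C.pos_mem he'.2.1, C.pos_mem he'.2.2⟩

theorem card_IV : P.Zs.card + (P.IE f).card ≤ (P.IV f).card + P.EH.card := by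
  classical
  have hw : P.w ∈ P.IV f := by
    unfold IV
    rw [Finset.mem_image]
    exact ⟨u, Finset.mem_sdiff.2 ⟨Finset.mem_univ _, C.upd⟩, C.pos_u⟩
  choose! nx hnx using fun x (hx : x ∈ P.Zs ∧ x ≠ P.w) => P.exists_next C.ok hx.1 hx.2
  have hne : ∀ x ∈ P.Zs \ P.IV f, x ∈ P.Zs ∧ x ≠ P.w := by
    intro x hx
    rw [Finset.mem_sdiff] at hx
    refine ⟨hx.1, ?_⟩
    rintro rfl
    exact hx.2 hw
  have h1 : (P.Zs \ P.IV f).card ≤ (P.EH \ P.IE f).card := by
    refine Finset.card_le_card_of_injOn (fun x => s(x, nx x)) ?_ ?_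
    · intro x hx
      have h2 := hnx x (hne x hx)
      rw [Finset.mem_coe, Finset.mem_sdiff]
      refine ⟨P.mem_EH.2 ⟨h2.1, (hne x hx).1, h2.2.1⟩, ?_⟩
      intro h3
      unfold IE at h3
      rw [Finset.mem_image] at h3
      obtain ⟨e, he, h4⟩ := h3
      rw [Finset.mem_coe, Finset.mem_sdiff] at hx
      apply hx.2
      induction e using Sym2.ind with
      | h a b =>
        rw [mem_EA] at he
        rw [Sym2.map_mk] at h4
        have h5 : x ∈ s(P.pos (f a), P.pos (f b)) := by
          rw [h4]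
          simp
        rw [Sym2.mem_iff] at h5
        unfold IV
        rw [Finset.mem_image]
        rcases h5 with h5 | h5
        · exact ⟨a, Finset.mem_sdiff.2 ⟨Finset.mem_univ _, he.2.1⟩, h5.symm⟩
        · exact ⟨b, Finset.mem_sdiff.2 ⟨Finset.mem_univ _, he.2.2⟩, h5.symm⟩
    · intro x hx y hy h
      by_contra hxy
      have h2 := (hnx x (hne x hx)).2.2
      have h3 := (hnx y (hne y hy)).2.2
      simp only [] at h
      rw [Sym2.eq_iff] at h
      rcases h with ⟨h, _⟩ | ⟨h, h4⟩
      · exact hxy h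
      · rw [h4] at h2
        rw [← h] at h3
        omega
  have h2 := Finset.card_sdiff_add_card_eq_card C.IV_sub
  have h3 := Finset.card_sdiff_add_card_eq_card C.IE_sub
  omega

theorem card_dom : (Finset.univ \ pd f : Finset (Fin k)).card + (pd f).card = k := by
  rw [Finset.card_sdiff_add_card_eq_card (Finset.subset_univ _), Finset.card_univ,
    Fintype.card_fin]

theorem card_bound : (Finset.univ \ pd f : Finset (Fin k)).card ≤ (P.IV f).card + 1 := by
  have h1 := C.card_dom
  have h2 := C.card_IV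
  have h3 := C.card_IE
  have h4 := C.card_EA
  have h5 := P.card_EH C.ok
  have h6 := P.card_Zs C.ok
  omega

/-- if two vertices have the same position then two edges have the same position -/
theorem exists_edge_coll (h : (P.IV f).card < (Finset.univ \ pd f : Finset (Fin k)).card) :
    ∃ a b c d, s(a, b) ∈ P.EA f ∧ s(c, d) ∈ P.EA f ∧ s(a, b) ≠ s(c, d) ∧
      P.pos (f a) = P.pos (f c) ∧ P.pos (f b) = P.pos (f d) := by
  classical
  have h0 : (P.IE f).card < (P.EA f).card := by
    have h1 := C.card_dom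
    have h2 := C.card_IV
    have h4 := C.card_EA
    have h5 := P.card_EH C.ok
    have h6 := P.card_Zs C.ok
    omega
  unfold IE at h0
  obtain ⟨e, he, e', he', hne, h1⟩ := Finset.exists_ne_map_eq_of_card_lt_of_maps_to h0
    (fun e he => Finset.mem_image_of_mem _ he)
  induction e using Sym2.ind with
  | h a b =>
    induction e' using Sym2.ind with
    | h c d =>
      rw [Sym2.map_mk, Sym2.map_mk, Sym2.eq_iff] at h1
      rcases h1 with ⟨h1, h2⟩ | ⟨h1, h2⟩
      · exact ⟨a, b, c, d, he, he', hne, h1, h2⟩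
      · refine ⟨a, b, d, c, he, ?_, ?_, h1, h2⟩
        · rw [Sym2.eq_swap]
          exact he'
        · rw [Sym2.eq_swap (a := d)]
          exact hne

/-- common neighbours of two vertices with the same position -/
theorem common {a a' n : Fin k} (ha : a ∉ pd f) (ha' : a' ∉ pd f) (hne : a ≠ a')
    (h : P.pos (f a) = P.pos (f a')) (hn : P.H.Adj n a) (hn' : P.H.Adj n a') : n = u := by
  by_contra hnu
  have hau : a ≠ u := by
    rintro rfl
    rw [C.pos_u] at h
    exact hne (C.pos_w ha' h.symm).symm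
  have hau' : a' ≠ u := by
    rintro rfl
    rw [C.pos_u] at h
    exact hne (C.pos_w ha h)
  have hnpd : n ∉ pd f := fun h1 => hau ((C.pdL h1).2 a hn)
  rcases C.cases hnpd with h1 | ⟨j, b, h1, h2⟩
  · exact hnu h1
  · rcases C.cases ha with h3 | ⟨j1, b1, h3, h4⟩
    · exact hau h3
    · rcases C.cases ha' with h5 | ⟨j2, b2, h5, h6⟩
      · exact hau' h5
      · have h7 := C.rb.2.1 n a hn
        have h8 := C.rb.2.1 n a' hn'
        rw [h2, h4] at h7
        rw [h2, h6] at h8
        have h9 : j = j1 ∧ b = b1 ∧ P.isY _ ∧ P.isY _ ∧ P.H.Adj _ _ := h7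
        have h10 : j = j2 ∧ b = b2 ∧ P.isY _ ∧ P.isY _ ∧ P.H.Adj _ _ := h8
        apply hne
        apply C.rb.1
        rw [h4, h6, ← h9.1, ← h9.2.1, ← h10.1, ← h10.2.1, h]

/-- the coincidences of positions -/
theorem coll {a a' : Fin k} (ha : a ∉ pd f) (ha' : a' ∉ pd f) (hne : a ≠ a')
    (h : P.pos (f a) = P.pos (f a')) : P.H.Adj u a ∧ P.H.Adj u a' ∧
    (∀ n, P.H.Adj n a → P.H.Adj n a' → n = u) ∧
    ∀ c c', c ∉ pd f → c' ∉ pd f → c ≠ c' → P.pos (f c) = P.pos (f c') →
      (c = a ∧ c' = a') ∨ (c = a' ∧ c' = a) := by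
  classical
  have hinj : ∀ b b', b ∉ pd f → b' ∉ pd f → b ≠ b' → P.pos (f b) = P.pos (f b') →
      ∀ c c', c ∉ pd f → c' ∉ pd f → c ≠ c' → P.pos (f c) = P.pos (f c') → c = b ∨ c' = b := by
    intro b b' hb hb' hbb he c c' hc hc' hcc he'
    by_contra hcon
    push Not at hcon
    have h1 : ((Finset.univ \ pd f).erase b).image (fun x => P.pos (f x)) = P.IV f := by
      unfold IV
      apply Finset.Subset.antisymm (Finset.image_subset_image (Finset.erase_subset _ _))
      intro y hy
      rw [Finset.mem_image] at hy ⊢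
      obtain ⟨x, hx, rfl⟩ := hy
      by_cases hxb : x = b
      · refine ⟨b', ?_, ?_⟩
        · rw [Finset.mem_erase, Finset.mem_sdiff]
          exact ⟨Ne.symm hbb, Finset.mem_univ _, hb'⟩
        · rw [hxb]
          exact he.symm
      · exact ⟨x, Finset.mem_erase.2 ⟨hxb, hx⟩, rfl⟩
    have h2 : ((Finset.univ \ pd f).erase b).card + 1 = (Finset.univ \ pd f).card :=
      Finset.card_erase_add_one (Finset.mem_sdiff.2 ⟨Finset.mem_univ _, hb⟩)
    have h3 := C.card_bound
    have h4 : (((Finset.univ \ pd f).erase b).image (fun x => P.pos (f x))).card =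
        ((Finset.univ \ pd f).erase b).card := by
      apply le_antisymm Finset.card_image_le
      rw [h1]
      omega
    rw [Finset.card_image_iff] at h4
    apply hcc
    refine h4 ?_ ?_ he'
    · rw [Finset.mem_coe, Finset.mem_erase, Finset.mem_sdiff]
      exact ⟨hcon.1, Finset.mem_univ _, hc⟩
    · rw [Finset.mem_coe, Finset.mem_erase, Finset.mem_sdiff]
      exact ⟨hcon.2, Finset.mem_univ _, hc'⟩
  have huniq : ∀ c c', c ∉ pd f → c' ∉ pd f → c ≠ c' → P.pos (f c) = P.pos (f c') →
      (c = a ∧ c' = a') ∨ (c = a' ∧ c' = a) := by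
    intro c c' hc hc' hcc he'
    have h1 := hinj a a' ha ha' hne h c c' hc hc' hcc he'
    have h2 := hinj a' a ha' ha (Ne.symm hne) h.symm c c' hc hc' hcc he'
    rcases h1 with h1 | h1
    · rcases h2 with h2 | h2
      · exact absurd (h1.symm.trans h2) hne
      · exact Or.inl ⟨h1, h2⟩
    · rcases h2 with h2 | h2
      · exact Or.inr ⟨h2, h1⟩
      · exact absurd (h1.symm.trans h2) hne
  have hcom : ∀ n, P.H.Adj n a → P.H.Adj n a' → n = u := fun n hn hn' =>
    C.common ha ha' hne h hn hn'
  have hlt : (P.IV f).card < (Finset.univ \ pd f : Finset (Fin k)).card := by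
    unfold IV
    apply lt_of_le_of_ne Finset.card_image_le
    intro h4
    rw [Finset.card_image_iff] at h4
    apply hne
    exact h4 (by simpa using ha) (by simpa using ha') h
  obtain ⟨x1, y1, x2, y2, he1, he2, hee, hx, hy⟩ := C.exists_edge_coll hlt
  rw [mem_EA] at he1 he2
  have key : ∀ n, P.H.Adj n a → P.H.Adj n a' → P.H.Adj u a ∧ P.H.Adj u a' := by
    intro n h1 h2
    have h3 := hcom n h1 h2
    rw [h3] at h1 h2
    exact ⟨h1, h2⟩
  have hua : P.H.Adj u a ∧ P.H.Adj u a' := by
    by_cases hxx : x1 = x2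
    · have hyy : y1 ≠ y2 := by
        rintro rfl
        exact hee (by rw [hxx])
      rcases huniq y1 y2 he1.2.2 he2.2.2 hyy hy with ⟨h1, h2⟩ | ⟨h1, h2⟩
      · apply key x1
        · rw [← h1]
          exact he1.1
        · rw [← h2, hxx]
          exact he2.1
      · apply key x1
        · rw [← h2, hxx]
          exact he2.1
        · rw [← h1]
          exact he1.1
    · rcases huniq x1 x2 he1.2.1 he2.2.1 hxx hx with ⟨h1, h2⟩ | ⟨h1, h2⟩
      · by_cases hyy : y1 = y2
        · apply key y1
          · rw [← h1]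
            exact he1.1.symm
          · rw [← h2, hyy]
            exact he2.1.symm
        · exfalso
          rcases huniq y1 y2 he1.2.2 he2.2.2 hyy hy with ⟨h3, h4⟩ | ⟨h3, h4⟩
          · exact he1.1.ne (h1.trans h3.symm)
          · apply hee
            rw [h1, h2, h3, h4, Sym2.eq_swap]
      · by_cases hyy : y1 = y2
        · apply key y1
          · rw [← h2, hyy]
            exact he2.1.symm
          · rw [← h1]
            exact he1.1.symm
        · exfalso
          rcases huniq y1 y2 he1.2.2 he2.2.2 hyy hy with ⟨h3, h4⟩ | ⟨h3, h4⟩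
          · apply hee
            rw [h1, h2, h3, h4, Sym2.eq_swap]
          · exact he1.1.ne (h1.trans h3.symm)
  exact ⟨hua.1, hua.2, hcom, huniq⟩

end Cp

/-- there is no rainbow copy -/
theorem free (hO : P.Ok) (hB : P.Bri)
    (hN : ∀ u b, P.H.Adj P.w u → P.H.Adj u b → b ≠ P.w → 1 < (nb P.H b).card →
      (∀ x, P.H.Adj b x → x ≠ u → (nb P.H x).card = 1) →
      (lf P.H u).card < (lf P.H P.w).card + ((nb P.H b).card - 1)) :
    ¬ Rb P.H (P.G m) (P.chi m) := by
  rintro ⟨f, hf⟩
  obtain ⟨a, i, hai⟩ := P.exists_pend hO hf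
  obtain ⟨u, hu⟩ := P.exists_nbr hO a
  have C : Cp P m f u := ⟨hO, hB, hf, P.nbr_pend hf hai hu⟩
  have F : Fold P.H P.w P.v P.l u (pd f) (fun x => P.pos (f x)) :=
    { adj_wv := hO.adj_wv
      adj_vl := hO.adj_vl
      nv := hO.nv
      wl := hO.wl
      nlw := hO.nlw
      hL := fun a ha => C.pdL ha
      hom := fun x y hx hy h => (C.edge hx hy h).1
      phu := C.pos_u
      huw := C.u_ne_w
      av := fun a ha => (P.mem_Zs.1 (C.pos_mem ha)).1
      alf := fun a ha => (P.mem_Zs.1 (C.pos_mem ha)).2.2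
      coll := fun a a' ha ha' hne h => C.coll ha ha' hne h
      bri := hB
      hN := hN
      conn := hO.conn }
  exact F.contra

end copy

end Pat

end Pool.Agent.Helper3.RT
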