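import Pool.Agent.Helper3.RT.SatQ

/-! The limit of `rsat(n, H) / n` for connected graphs with a pendant path, second family: the proof. -/

set_option autoImplicit false

namespace Pool.Agent.Helper3.RT.NonCut

/-- the degree of a vertex -/
noncomputable def deg {k : ℕ} (H : SimpleGraph (Fin k)) (x : Fin k) : ℕ :=
  (H.neighborSet x).ncard

/-- the number of leaves (vertices of degree one) adjacent to a vertex -/
noncomputable def leaves {k : ℕ} (H : SimpleGraph (Fin k)) (x : Fin k) : ℕ :=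
  {y : Fin k | H.Adj x y ∧ deg H y = 1}.ncard

/-- See `Pool.Agent.Results.MP_e4665f_co.PendantPathNonCut`. -/
theorem main (k : ℕ) (H : SimpleGraph (Fin k)) (hconn : H.Connected) (w v l : Fin k)
    (hwv : H.Adj w v) (hvl : H.Adj v l) (hv : deg H v = 2) (hl : deg H l = 1)
    (hw : deg H w ≠ 1)
    (hG : ∀ u, u ≠ w → leaves H w < leaves H u →
      (H.induce {x | x ≠ u ∧ ¬ (H.Adj u x ∧ deg H x = 1)}).Preconnected) :
    (∃ C : ℕ, ∀ n : ℕ, Helper28.RS.rsat H n ≤ n + C) ∧
    ∃ c : ℝ, (c = 1 ∨ ∃ p : ℕ, 0 < p ∧ c = 1 - 1 / (p : ℝ)) ∧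
      Filter.Tendsto (fun n : ℕ => (Helper28.RS.rsat H n : ℝ) / (n : ℝ)) Filter.atTop (nhds c) := by
  classical
  have hdeg : ∀ x, deg H x = (Helper3.RT.nb H x).card := by
    intro x
    unfold deg
    rw [← Set.ncard_coe_finset]
    congr 1
    ext y
    rw [Finset.mem_coe, Helper3.RT.mem_nb]
    rfl
  have hlea : ∀ x, leaves H x = (Helper3.RT.lf H x).card := by
    intro x
    unfold leaves
    rw [← Set.ncard_coe_finset]
    congr 1
    ext y
    rw [Finset.mem_coe, Helper3.RT.mem_lf, Set.mem_ofPred_eq, hdeg]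
  have hwl : w ≠ l := by
    rintro rfl
    exact hw hl
  have hcard2 : ∀ x y z : Fin k, deg H x = 2 → H.Adj x y → H.Adj x z → y ≠ z →
      ∀ a, H.Adj x a → a = y ∨ a = z := by
    intro x y z hx hy hz hyz a ha
    rw [hdeg] at hx
    by_contra hcon
    push Not at hcon
    have h1 : ({y, z, a} : Finset (Fin k)) ⊆ Helper3.RT.nb H x := by
      intro t ht
      rw [Finset.mem_insert, Finset.mem_insert, Finset.mem_singleton] at ht
      rw [Helper3.RT.mem_nb]
      rcases ht with rfl | rfl | rfl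
      · exact hy
      · exact hz
      · exact ha
    have h2 := Finset.card_le_card h1
    rw [Finset.card_eq_three.2 ⟨y, z, a, hyz, Ne.symm hcon.1, Ne.symm hcon.2, rfl⟩] at h2
    omega
  have hone : ∀ x y : Fin k, deg H x = 1 → H.Adj x y → ∀ a, H.Adj x a → a = y := by
    intro x y hx hy a ha
    rw [hdeg] at hx
    exact Helper3.RT.Fold.leaf_unique (by omega) ha hy
  let P : Helper3.RT.Pat k := ⟨H, w, v, l⟩
  have hO : P.Ok :=
    { adj_wv := hwv
      adj_vl := hvl
      nv := hcard2 v w l hv hwv.symm hvl hwl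
      nl := hone l v hl hvl.symm
      wl := hwl
      nlw := by
        have h1 : 0 < (Helper3.RT.nb H w).card :=
          Finset.card_pos.2 ⟨v, Helper3.RT.mem_nb.2 hwv⟩
        have h2 := hdeg w
        show 1 < (Helper3.RT.nb H w).card
        omega
      conn := hconn }
  obtain ⟨C, hC⟩ := Helper3.RT.rsat_le_add H (K0 := Fintype.card (Helper3.RT.Core k))
    (K1 := Fintype.card (Sym2 (Helper3.RT.Core k))) (m0 := k + 3) (by
      intro m hm
      refine P.good2 hO hm (P.free2 hO ?_)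
      intro u hu hlt x y hx hy hxl hyl
      have h1 := hG u hu (by rw [hlea, hlea]; exact hlt)
      have hmem : ∀ z, z ≠ u → z ∉ Helper3.RT.lf H u →
          z ∈ {x | x ≠ u ∧ ¬ (H.Adj u x ∧ deg H x = 1)} := by
        intro z hz hzl
        refine ⟨hz, fun h2 => hzl ?_⟩
        rw [Helper3.RT.mem_lf, ← hdeg]
        exact h2
      have h2 := h1 ⟨x, hmem x hx hxl⟩ ⟨y, hmem y hy hyl⟩
      rw [SimpleGraph.reachable_iff_reflTransGen] at h2
      have h3 : ∀ (a : {x | x ≠ u ∧ ¬ (H.Adj u x ∧ deg H x = 1)}),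
          Relation.ReflTransGen
            (H.induce {x | x ≠ u ∧ ¬ (H.Adj u x ∧ deg H x = 1)}).Adj ⟨x, hmem x hx hxl⟩ a →
          Relation.ReflTransGen (fun a b => H.Adj a b ∧ a ≠ u ∧ b ≠ u) x a.1 := by
        intro a ha
        induction ha with
        | refl => exact Relation.ReflTransGen.refl
        | @tail b c _ hbc ih => exact ih.tail ⟨hbc, b.2.1, c.2.1⟩
      exact h3 _ h2)
  exact ⟨⟨C, hC⟩, Helper3.RT.limit_of_le H ⟨s(w, v), hwv⟩ hC⟩

end Pool.Agent.Helper3.RT.NonCut
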