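import Pool.Agent.Helper3.RT.Bound

/-! MP_e4665f_co, Q1: the limit exists for connected graphs with a pendant path. -/

set_option autoImplicit false

namespace Pool.Agent.Results.MP_e4665f_co.PendantPath

/-- The rainbow saturation number `rsat(n, H)`, exactly as in the frozen statement: the least number
of edges of an edge-coloured graph `(G, χ)` on `n` vertices without rainbow copy of `H` such that
adding any missing edge in any colour creates a rainbow copy of `H`. -/
noncomputable def rsat {k : ℕ} (H : SimpleGraph (Fin k)) (n : ℕ) : ℕ :=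
  sInf {m : ℕ | ∃ (G : SimpleGraph (Fin n)) (χ : Sym2 (Fin n) → ℕ),
    G.edgeSet.ncard = m ∧
    (¬ ∃ f : Fin k → Fin n, Function.Injective f ∧
        (∀ u v, H.Adj u v → G.Adj (f u) (f v)) ∧
        ∀ e₁ ∈ H.edgeSet, ∀ e₂ ∈ H.edgeSet,
          χ (e₁.map f) = χ (e₂.map f) → e₁ = e₂) ∧
    ∀ x y : Fin n, x ≠ y → ¬ G.Adj x y → ∀ col : ℕ,
      ∃ f : Fin k → Fin n, Function.Injective f ∧
        (∀ u v, H.Adj u v →
          (G ⊔ SimpleGraph.fromEdgeSet {s(x, y)}).Adj (f u) (f v)) ∧
        ∀ e₁ ∈ H.edgeSet, ∀ e₂ ∈ H.edgeSet,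
          Function.update χ s(x, y) col (e₁.map f) =
            Function.update χ s(x, y) col (e₂.map f) → e₁ = e₂}

/-- the degree of a vertex -/
noncomputable def deg {k : ℕ} (H : SimpleGraph (Fin k)) (x : Fin k) : ℕ :=
  (H.neighborSet x).ncard

/-- the number of leaves (vertices of degree one) adjacent to a vertex -/
noncomputable def leaves {k : ℕ} (H : SimpleGraph (Fin k)) (x : Fin k) : ℕ :=
  {y : Fin k | H.Adj x y ∧ deg H y = 1}.ncard

/-- Let `H` be a connected graph with a pendant path `w v l` of length two (`l` has degree one and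
`v` has degree two) such that `w` is not a leaf and every edge at `w` is a bridge. Assume that
there is no path `w u b` such that `b` is not a leaf, all neighbours of `b` except `u` are leaves,
and `u` is adjacent to at least `leaves w + deg b - 1` leaves. Then `rsat(n, H) ≤ n + O(1)`, and
`rsat(n, H) / n` converges, to `1` or to `1 - 1/p` for an integer `p ≥ 1`. -/
theorem result (k : ℕ) (H : SimpleGraph (Fin k)) (hconn : H.Connected) (w v l : Fin k)
    (hwv : H.Adj w v) (hvl : H.Adj v l) (hv : deg H v = 2) (hl : deg H l = 1)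
    (hw : deg H w ≠ 1) (hbr : ∀ y, H.Adj w y → H.IsBridge s(w, y))
    (hN : ∀ u b, H.Adj w u → H.Adj u b → b ≠ w → deg H b ≠ 1 →
      (∀ x, H.Adj b x → x ≠ u → deg H x = 1) → leaves H u < leaves H w + (deg H b - 1)) :
    (∃ C : ℕ, ∀ n : ℕ, rsat H n ≤ n + C) ∧
    ∃ c : ℝ, (c = 1 ∨ ∃ p : ℕ, 0 < p ∧ c = 1 - 1 / (p : ℝ)) ∧
      Filter.Tendsto (fun n : ℕ => (rsat H n : ℝ) / (n : ℝ)) Filter.atTop (nhds c) := by
  classical
  have hr : ∀ n, rsat H n = Helper28.RS.rsat H n := fun n => rfl
  simp only [hr]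
  have hdeg : ∀ x, deg H x = (Helper3.RT.nb H x).card := by
    intro x
    unfold deg
    rw [← Set.ncard_coe_finset]
    congr 1
    ext y
    rw [Finset.mem_coe, Helper3.RT.mem_nb]
    rfl
  have hlea : ∀ x, leaves H x = (Helper3.RT.lf H x).card := by
    intro x
    unfold leaves
    rw [← Set.ncard_coe_finset]
    congr 1
    ext y
    rw [Finset.mem_coe, Helper3.RT.mem_lf, Set.mem_ofPred_eq, hdeg]
  have hwl : w ≠ l := by
    rintro rfl
    exact hw hl
  have hcard2 : ∀ x y z : Fin k, deg H x = 2 → H.Adj x y → H.Adj x z → y ≠ z →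
      ∀ a, H.Adj x a → a = y ∨ a = z := by
    intro x y z hx hy hz hyz a ha
    rw [hdeg] at hx
    by_contra hcon
    push Not at hcon
    have h1 : ({y, z, a} : Finset (Fin k)) ⊆ Helper3.RT.nb H x := by
      intro t ht
      rw [Finset.mem_insert, Finset.mem_insert, Finset.mem_singleton] at ht
      rw [Helper3.RT.mem_nb]
      rcases ht with rfl | rfl | rfl
      · exact hy
      · exact hz
      · exact ha
    have h2 := Finset.card_le_card h1
    rw [Finset.card_eq_three.2 ⟨y, z, a, hyz, Ne.symm hcon.1, Ne.symm hcon.2, rfl⟩] at h2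
    omega
  have hone : ∀ x y : Fin k, deg H x = 1 → H.Adj x y → ∀ a, H.Adj x a → a = y := by
    intro x y hx hy a ha
    rw [hdeg] at hx
    exact Helper3.RT.Fold.leaf_unique (by omega) ha hy
  let P : Helper3.RT.Pat k := ⟨H, w, v, l⟩
  have hO : P.Ok :=
    { adj_wv := hwv
      adj_vl := hvl
      nv := hcard2 v w l hv hwv.symm hvl hwl
      nl := hone l v hl hvl.symm
      wl := hwl
      nlw := by
        have h1 : 0 < (Helper3.RT.nb H w).card :=
          Finset.card_pos.2 ⟨v, Helper3.RT.mem_nb.2 hwv⟩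
        have h2 := hdeg w
        show 1 < (Helper3.RT.nb H w).card
        omega
      conn := hconn }
  have hB : P.Bri := by
    intro y hy
    have h1 := (SimpleGraph.isBridge_iff.1 (hbr y hy))
    intro h2
    apply h1
    refine h2.mono ?_
    intro a b hab
    rw [SimpleGraph.sdiff_adj, SimpleGraph.fromEdgeSet_adj] at hab
    rw [SimpleGraph.deleteEdges_adj]
    exact ⟨hab.1, fun h3 => hab.2 ⟨h3, hab.1.ne⟩⟩
  obtain ⟨C, hC⟩ := Helper3.RT.rsat_le_add H (K0 := Fintype.card (Helper3.RT.Core k))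
    (K1 := Fintype.card (Sym2 (Helper3.RT.Core k))) (m0 := k + 3) (by
      intro m hm
      refine P.good hO hm (P.free hO hB ?_)
      intro u b h1 h2 h3 h4 h5
      have h7 : 1 < (Helper3.RT.nb H b).card := h4
      have h6 := hN u b h1 h2 h3 (by rw [hdeg]; omega) (by
        intro x hx hxu
        rw [hdeg]
        exact h5 x hx hxu)
      rw [hlea, hlea, hdeg] at h6
      exact h6)
  exact ⟨⟨C, hC⟩, Helper3.RT.limit_of_le H ⟨s(w, v), hwv⟩ hC⟩

end Pool.Agent.Results.MP_e4665f_co.PendantPath
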