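import Pool.Agent.Helper3.RT.Constr2
import Pool.Agent.Helper3.RT.Bound

/-! Rainbow saturation of graphs with a pendant path: second construction, edges at pendant
vertices (MP_e4665f_co). -/

set_option autoImplicit false

namespace Pool.Agent.Helper3.RT

open SimpleGraph Pool.Agent.Helper28.RS

variable {k : ℕ}

namespace Pat

variable (P : Pat k)

theorem isN_of {y : Fin k} (hy : P.isY y) (h : P.H.Adj P.w y) : P.isN y := by
  refine ⟨hy, ?_⟩
  have h1 : 0 < (nb P.H y).card := Finset.card_pos.2 ⟨P.w, mem_nb.2 h.symm⟩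
  have h2 : (nb P.H y).card ≠ 1 := fun h3 => hy.2.2.2 (mem_lf.2 ⟨h, h3⟩)
  omega

/-- a convenient way to produce a rainbow copy which uses the new edge -/
theorem mkRb2 {m : ℕ} {x y : Fin m ⊕ Core k} (hxy : x ≠ y) {c : ℕ} {f : Fin k → Fin m ⊕ Core k}
    (hinj : Function.Injective f) {a0 b0 : Fin k} (ha : f a0 = x) (hb : f b0 = y)
    (C : Sym2 (Fin k) → ℕ → Prop) (hC0 : C s(a0, b0) c)
    (hG : ∀ e ∈ P.H.edgeSet, e ≠ s(a0, b0) → ∃ a b, e = s(a, b) ∧ (P.G2 m).Adj (f a) (f b) ∧
      C e (P.vcol2 m (f a) (f b)))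
    (hC : ∀ e e' n, C e n → C e' n → e = e') :
    Rb P.H (P.G2 m ⊔ fromEdgeSet {s(x, y)}) (Function.update (P.chi2 m) s(x, y) c) := by
  have hmap : ∀ e, e.map f = s(x, y) → e = s(a0, b0) := by
    intro e he
    have h1 : e.map f = Sym2.map f s(a0, b0) := by rw [he, Sym2.map_mk, ha, hb]
    exact Sym2.map.injective hinj h1
  have key : ∀ e ∈ P.H.edgeSet, C e (Function.update (P.chi2 m) s(x, y) c (e.map f)) := by
    intro e he
    by_cases h1 : e = s(a0, b0)
    · have h2 : e.map f = s(x, y) := by rw [h1, Sym2.map_mk, ha, hb]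
      rw [h2, Function.update_self, h1]
      exact hC0
    · rw [Function.update_of_ne (fun h2 => h1 (hmap e h2))]
      obtain ⟨a, b, h2, _, h3⟩ := hG e he h1
      rw [h2] at h3 ⊢
      exact h3
  refine ⟨f, hinj, ?_, ?_⟩
  · intro a b hab
    rw [adj_sup_edge hxy]
    by_cases h1 : s(a, b) = s(a0, b0)
    · right
      rw [← Sym2.map_mk f a b, h1, Sym2.map_mk, ha, hb]
    · left
      obtain ⟨a', b', h2, h3, _⟩ := hG s(a, b) hab h1
      rw [Sym2.eq_iff] at h2
      rcases h2 with ⟨h2, h4⟩ | ⟨h2, h4⟩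
      · rw [h2, h4]
        exact h3
      · rw [h2, h4]
        exact h3.symm
  · intro e he e' he' h
    have h1 := key e he
    rw [h] at h1
    exact hC _ _ _ h1 (key e' he')

theorem cb_adj2 {m : ℕ} (s : Finset (Option (Sym2 (Fin k)) × Fin k)) (j : Option (Sym2 (Fin k)))
    (r : Fin k) {x y : Fin k} (h : P.H.Adj x y) (hne : s(x, y) ≠ s(P.v, P.l)) :
    (P.G2 m).Adj (Sum.inr (cb s j r x)) (Sum.inr (cb s j r y)) ∧
      P.vcol2 m (Sum.inr (cb s j r x)) (Sum.inr (cb s j r y)) = P.col j s(x, y) := by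
  have h1 : P.cubeEdge (symmDiff (symmDiff s (symmDiff {(j, r)} {(j, x)}))
      (symmDiff s (symmDiff {(j, r)} {(j, y)}))) j x y := ⟨h, hne, symm_pair s j r x y h.ne⟩
  exact ⟨⟨j, x, y, h1⟩, P.cubecol_eq h1⟩

/-- pendant vertex and blob vertex, colour of the pendant edge -/
theorem satC2 (hO : P.Ok) {m : ℕ} (i : Fin m) (s : Finset (Option (Sym2 (Fin k)) × Fin k)) :
    Rb P.H (P.G2 m ⊔ fromEdgeSet {s(Sum.inl i, Sum.inr (Core.cube s))})
      (Function.update (P.chi2 m) s(Sum.inl i, Sum.inr (Core.cube s)) (big k + i)) := by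
  classical
  refine P.mkRb2 (f := fun x => if x = P.l then Sum.inl i else Sum.inr (cb s none P.v x))
    (a0 := P.l) (b0 := P.v) (by simp) ?_ (if_pos rfl) ?_
    (fun e n => (e = s(P.l, P.v) ∧ n = big k + i) ∨ n = P.col none e) (Or.inl ⟨rfl, rfl⟩) ?_ ?_
  · intro x y h
    simp only [] at h
    split_ifs at h with h1 h2 h2
    · rw [h1, h2]
    · exact cb_inj (Sum.inr.inj h)
  · rw [if_neg hO.adj_vl.ne, cb_root]
  · intro e he hne
    induction e using Sym2.ind with
    | h a b =>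
      have hab : P.H.Adj a b := he
      have ha : a ≠ P.l := by
        rintro rfl
        exact hne (by rw [hO.nl b hab])
      have hb : b ≠ P.l := by
        rintro rfl
        exact hne (by rw [hO.nl a hab.symm, Sym2.eq_swap])
      refine ⟨a, b, rfl, ?_⟩
      simp only [if_neg ha, if_neg hb]
      have h1 : s(a, b) ≠ s(P.v, P.l) := by
        rw [Sym2.eq_swap (a := P.v)]
        exact hne
      have h2 := P.cb_adj2 (m := m) s none P.v hab h1
      exact ⟨h2.1, Or.inr h2.2⟩
  · rintro e e' n (⟨h1, h2⟩ | h1) (⟨h3, h4⟩ | h3)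
    · rw [h1, h3]
    · have := P.col_lt none e'
      omega
    · have := P.col_lt none e
      omega
    · exact P.col_none_inj (h1.symm.trans h3)

/-- pendant vertex and petal vertex, colour of the pendant edge -/
theorem satB2 (hO : P.Ok) {m : ℕ} (i : Fin m) (j : Option (Sym2 (Fin k))) (b : Bool) (y : Fin k)
    (hyN : ¬ P.isN y) :
    Rb P.H (P.G2 m ⊔ fromEdgeSet {s(Sum.inl i, Sum.inr (Core.pet j b y))})
      (Function.update (P.chi2 m) s(Sum.inl i, Sum.inr (Core.pet j b y)) (big k + i)) := by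
  classical
  obtain ⟨j', hj'⟩ := P.exists_j (P.lcol j y)
  have hwv := hO.adj_wv.ne
  refine P.mkRb2 (f := fun x => if x = P.l then Sum.inl i else if x = P.v then
      Sum.inr (Core.pet j b y) else Sum.inr (cb ∅ j' P.w x))
    (a0 := P.l) (b0 := P.v) (by simp) ?_ (if_pos rfl) ?_
    (fun e n => (e = s(P.l, P.v) ∧ n = big k + i) ∨ (e = s(P.w, P.v) ∧ n = P.lcol j y) ∨
      (e ≠ s(P.w, P.v) ∧ n = P.col j' e)) (Or.inl ⟨rfl, rfl⟩) ?_ ?_
  · intro x y' h
    simp only [] at h
    split_ifs at h with h1 h2 h3 h4 h5 h6 h7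
    · rw [h1, h2]
    · rw [h4, h6]
    · exact absurd (Sum.inr.inj h) (by simp [cb])
    · exact absurd (Sum.inr.inj h) (by simp [cb])
    · exact cb_inj (Sum.inr.inj h)
  · rw [if_neg hO.adj_vl.ne, if_pos rfl]
  · intro e he hne
    by_cases hwe : e = s(P.w, P.v)
    · refine ⟨P.w, P.v, hwe, ?_⟩
      simp only [if_neg hO.wl, if_neg hwv, if_neg hO.adj_vl.ne, if_true]
      rw [cb_root]
      exact ⟨⟨hyN, rfl⟩, Or.inr (Or.inl ⟨hwe, rfl⟩)⟩
    · induction e using Sym2.ind with
      | h a b' =>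
        have hab : P.H.Adj a b' := he
        have ha : a ≠ P.l := by
          rintro rfl
          exact hne (by rw [hO.nl b' hab])
        have hb : b' ≠ P.l := by
          rintro rfl
          exact hne (by rw [hO.nl a hab.symm, Sym2.eq_swap])
        have ha' : a ≠ P.v := by
          rintro rfl
          rcases hO.nv b' hab with h | h
          · exact hwe (by rw [h, Sym2.eq_swap])
          · exact hb h
        have hb' : b' ≠ P.v := by
          rintro rfl
          rcases hO.nv a hab.symm with h | h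
          · exact hwe (by rw [h])
          · exact ha h
        refine ⟨a, b', rfl, ?_⟩
        simp only [if_neg ha, if_neg hb, if_neg ha', if_neg hb']
        have h1 : s(a, b') ≠ s(P.v, P.l) := by
          rw [Sym2.eq_swap (a := P.v)]
          exact hne
        have h2 := P.cb_adj2 (m := m) ∅ j' P.w hab h1
        exact ⟨h2.1, Or.inr (Or.inr ⟨hwe, h2.2⟩)⟩
  · have hlt := P.lcol_lt j y
    rintro e e' n (⟨h1, h2⟩ | ⟨h1, h2⟩ | ⟨h1, h2⟩) (⟨h3, h4⟩ | ⟨h3, h4⟩ | ⟨h3, h4⟩)
    · rw [h1, h3]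
    · omega
    · have := P.col_lt j' e'
      omega
    · omega
    · rw [h1, h3]
    · exact absurd (h4.symm.trans h2) (hj' e' h3)
    · have := P.col_lt j' e
      omega
    · exact absurd (h2.symm.trans h4) (hj' e h1)
    · exact P.col_inj h1 h3 (h2.symm.trans h4)

/-- pendant vertex and another vertex, colour different from that of the pendant edge -/
theorem satA2 (hO : P.Ok) {m : ℕ} (hm : k + 3 ≤ m) (i : Fin m) (t : Fin m ⊕ Core k)
    (ht : t ≠ Sum.inl i) (ht2 : t ≠ Sum.inr Core.hub) {c : ℕ} (hc : c ≠ big k + i) :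
    Rb P.H (P.G2 m ⊔ fromEdgeSet {s(Sum.inl i, t)})
      (Function.update (P.chi2 m) s(Sum.inl i, t) c) := by
  classical
  obtain ⟨j, hj⟩ := P.exists_j c
  obtain ⟨π, hπ, hπ2⟩ := exists_pi hm i t c
  obtain ⟨b, hb⟩ : ∃ b : Bool, ∀ j' y, t ≠ Sum.inr (Core.pet j' b y) := by
    by_contra hcon
    push Not at hcon
    obtain ⟨j1, y1, h1⟩ := hcon true
    obtain ⟨j2, y2, h2⟩ := hcon false
    have := Sum.inr.inj (h1.symm.trans h2)
    rw [Core.pet.injEq] at this
    exact Bool.noConfusion this.2.1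
  have hwv := hO.adj_wv.ne
  have hvl := hO.adj_vl.ne
  have hvlf : P.v ∉ lf P.H P.w := by
    intro h
    have h1 := (mem_lf.1 h).2
    have h2 : 1 < (nb P.H P.v).card := Fold.nl_iff.2 ⟨P.w, P.l, hO.adj_wv.symm, hO.adj_vl, hO.wl⟩
    omega
  have hllf : P.l ∉ lf P.H P.w := by
    intro h
    exact hwv (hO.nl _ (mem_lf.1 h).1.symm)
  obtain ⟨f, hf⟩ : ∃ f : Fin k → Fin m ⊕ Core k, f = fun x => if x = P.w then Sum.inr Core.hub
    else if x = P.v then Sum.inl i else if x = P.l then t else if x ∈ lf P.H P.w then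
    Sum.inl (π x) else Sum.inr (Core.pet j b x) := ⟨_, rfl⟩
  have fw : f P.w = Sum.inr Core.hub := by rw [hf]; exact if_pos rfl
  have fv : f P.v = Sum.inl i := by
    rw [hf]
    simp only [if_neg (Ne.symm hwv), if_true]
  have fl : f P.l = t := by
    rw [hf]
    simp only [if_neg (Ne.symm hO.wl), if_neg (Ne.symm hvl), if_true]
  have flf : ∀ x ∈ lf P.H P.w, f x = Sum.inl (π x) := by
    intro x hx
    have h1 : x ≠ P.w := by
      rintro rfl
      exact P.w_notlf hx
    have h2 : x ≠ P.v := by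
      rintro rfl
      exact hvlf hx
    have h3 : x ≠ P.l := by
      rintro rfl
      exact hllf hx
    rw [hf]
    simp only [if_neg h1, if_neg h2, if_neg h3, if_pos hx]
  have fY : ∀ x, P.isY x → f x = Sum.inr (Core.pet j b x) := by
    intro x hx
    rw [hf]
    simp only [if_neg hx.1, if_neg hx.2.1, if_neg hx.2.2.1, if_neg hx.2.2.2]
  have kinds : ∀ x, x = P.w ∨ x = P.v ∨ x = P.l ∨ x ∈ lf P.H P.w ∨ P.isY x := by
    intro x
    by_cases h1 : x = P.w
    · exact Or.inl h1
    · by_cases h2 : x = P.v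
      · exact Or.inr (Or.inl h2)
      · by_cases h3 : x = P.l
        · exact Or.inr (Or.inr (Or.inl h3))
        · by_cases h4 : x ∈ lf P.H P.w
          · exact Or.inr (Or.inr (Or.inr (Or.inl h4)))
          · exact Or.inr (Or.inr (Or.inr (Or.inr ⟨h1, h2, h3, h4⟩)))
  have hinj : Function.Injective f := by
    intro x y h
    rcases kinds x with hx | hx | hx | hx | hx <;> rcases kinds y with hy | hy | hy | hy | hy
    · rw [hx, hy]
    · rw [hx, hy, fw, fv] at h; cases h
    · rw [hx, hy, fw, fl] at h; exact absurd h.symm ht2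
    · rw [hx, fw, flf y hy] at h; cases h
    · rw [hx, fw, fY y hy] at h; cases h
    · rw [hx, hy, fw, fv] at h; cases h
    · rw [hx, hy]
    · rw [hx, hy, fv, fl] at h; exact absurd h.symm ht
    · rw [hx, fv, flf y hy] at h; exact absurd (Sum.inl.inj h).symm (hπ2 y).1
    · rw [hx, fv, fY y hy] at h; cases h
    · rw [hx, hy, fw, fl] at h; exact absurd h ht2
    · rw [hx, hy, fv, fl] at h; exact absurd h ht
    · rw [hx, hy]
    · rw [hx, fl, flf y hy] at h; exact absurd h (hπ2 y).2.1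
    · rw [hx, fl, fY y hy] at h; exact absurd h (hb _ _)
    · rw [hy, fw, flf x hx] at h; cases h
    · rw [hy, fv, flf x hx] at h; exact absurd (Sum.inl.inj h) (hπ2 x).1
    · rw [hy, fl, flf x hx] at h; exact absurd h.symm (hπ2 x).2.1
    · rw [flf x hx, flf y hy] at h; exact hπ (Sum.inl.inj h)
    · rw [flf x hx, fY y hy] at h; cases h
    · rw [hy, fw, fY x hx] at h; cases h
    · rw [hy, fv, fY x hx] at h; cases h
    · rw [hy, fl, fY x hx] at h; exact absurd h.symm (hb _ _)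
    · rw [flf y hy, fY x hx] at h; cases h
    · rw [fY x hx, fY y hy] at h
      have := Sum.inr.inj h
      rw [Core.pet.injEq] at this
      exact this.2.2
  have hYwv : ∀ y, P.isY y → s(P.w, y) ≠ s(P.w, P.v) := by
    intro y hy h
    rw [Sym2.congr_right] at h
    exact hy.2.1 h
  have hYYwv : ∀ y y', P.isY y → P.isY y' → s(y, y') ≠ s(P.w, P.v) := by
    intro y y' hy hy' h
    rw [Sym2.eq_iff] at h
    rcases h with ⟨h, _⟩ | ⟨h, _⟩
    · exact hy.1 h
    · exact hy.2.1 h
  refine P.mkRb2 (f := f) (a0 := P.v) (b0 := P.l) (Ne.symm ht) hinj fv fl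
    (fun e n => (e = s(P.v, P.l) ∧ n = c) ∨ (e = s(P.w, P.v) ∧ n = big k + i) ∨
      (∃ x ∈ lf P.H P.w, e = s(P.w, x) ∧ n = big k + π x) ∨
      (e ≠ s(P.w, P.v) ∧ n = P.col j e)) (Or.inl ⟨rfl, rfl⟩) ?_ ?_
  · intro e he hne
    rcases P.classify hO he with h | h | ⟨x, hx, h⟩ | ⟨y, hy, hwy, h⟩ | ⟨y, y', hy, hy', hyy, h⟩
    · refine ⟨P.w, P.v, h, ?_⟩
      rw [fw, fv]
      exact ⟨rfl, Or.inr (Or.inl ⟨h, rfl⟩)⟩
    · exact absurd h hne
    · refine ⟨P.w, x, h, ?_⟩
      rw [fw, flf x hx]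
      exact ⟨rfl, Or.inr (Or.inr (Or.inl ⟨x, hx, h, rfl⟩))⟩
    · refine ⟨P.w, y, h, ?_⟩
      rw [fw, fY y hy]
      refine ⟨P.isN_of hy hwy, Or.inr (Or.inr (Or.inr ⟨?_, ?_⟩))⟩
      · rw [h]
        exact hYwv y hy
      · rw [h]
        exact if_pos hwy
    · refine ⟨y, y', h, ?_⟩
      rw [fY y hy, fY y' hy']
      refine ⟨⟨rfl, rfl, hy, hy', hyy⟩, Or.inr (Or.inr (Or.inr ⟨?_, ?_⟩))⟩
      · rw [h]
        exact hYYwv y y' hy hy'
      · rw [h]
        exact if_pos rfl
  · rintro e e' n (⟨h1, h2⟩ | ⟨h1, h2⟩ | ⟨x, hx, h1, h2⟩ | ⟨h1, h2⟩)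
      (⟨h3, h4⟩ | ⟨h3, h4⟩ | ⟨y, hy, h3, h4⟩ | ⟨h3, h4⟩)
    · rw [h1, h3]
    · exact absurd (h2.symm.trans h4) hc
    · exact absurd (h2.symm.trans h4) (hπ2 y).2.2
    · exact absurd (h4.symm.trans h2) (hj e' h3)
    · exact absurd (h4.symm.trans h2) hc
    · rw [h1, h3]
    · exfalso
      apply (hπ2 y).1
      apply Fin.ext
      omega
    · have := P.col_lt j e'
      omega
    · exact absurd (h4.symm.trans h2) (hπ2 x).2.2
    · exfalso
      apply (hπ2 x).1
      apply Fin.ext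
      omega
    · have h5 : π x = π y := by
        apply Fin.ext
        omega
      rw [h1, h3, hπ h5]
    · have := P.col_lt j e'
      omega
    · exact absurd (h2.symm.trans h4) (hj e h1)
    · have := P.col_lt j e
      omega
    · have := P.col_lt j e
      omega
    · exact P.col_inj h1 h3 (h2.symm.trans h4)

/-- pendant vertex and petal vertex joined to the hub, colour of the pendant edge -/
theorem satD (hO : P.Ok) {m : ℕ} (hm : k + 3 ≤ m) (i : Fin m) (j0 : Option (Sym2 (Fin k)))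
    (b0 : Bool) (y0 : Fin k) (hyN : P.isN y0) :
    Rb P.H (P.G2 m ⊔ fromEdgeSet {s(Sum.inl i, Sum.inr (Core.pet j0 b0 y0))})
      (Function.update (P.chi2 m) s(Sum.inl i, Sum.inr (Core.pet j0 b0 y0)) (big k + i)) := by
  classical
  obtain ⟨j, hj⟩ := P.exists_j (P.hcol j0 y0)
  obtain ⟨π, hπ, hπ2⟩ := exists_pi (k := k) hm i (Sum.inl i) (big k + i)
  obtain ⟨b, hb⟩ : ∃ b : Bool, b ≠ b0 := ⟨!b0, by simp⟩
  obtain ⟨t, ht⟩ : ∃ t : Fin m ⊕ Core k, t = Sum.inr (Core.pet j0 b0 y0) := ⟨_, rfl⟩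
  have hbt : ∀ j' y, t ≠ Sum.inr (Core.pet j' b y) := by
    intro j' y h
    rw [ht] at h
    have := Sum.inr.inj h
    rw [Core.pet.injEq] at this
    exact hb this.2.1.symm
  have hti : t ≠ Sum.inl i := by rw [ht]; simp
  have ht2 : t ≠ Sum.inr Core.hub := by rw [ht]; simp
  have htl : ∀ i', t ≠ Sum.inl i' := by intro i'; rw [ht]; simp
  have hwv := hO.adj_wv.ne
  have hvl := hO.adj_vl.ne
  have hvlf : P.v ∉ lf P.H P.w := by
    intro h
    have h1 := (mem_lf.1 h).2
    have h2 : 1 < (nb P.H P.v).card := Fold.nl_iff.2 ⟨P.w, P.l, hO.adj_wv.symm, hO.adj_vl, hO.wl⟩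
    omega
  have hllf : P.l ∉ lf P.H P.w := by
    intro h
    exact hwv (hO.nl _ (mem_lf.1 h).1.symm)
  obtain ⟨f, hf⟩ : ∃ f : Fin k → Fin m ⊕ Core k, f = fun x => if x = P.w then Sum.inr Core.hub
    else if x = P.v then t else if x = P.l then Sum.inl i else if x ∈ lf P.H P.w then
    Sum.inl (π x) else Sum.inr (Core.pet j b x) := ⟨_, rfl⟩
  have fw : f P.w = Sum.inr Core.hub := by rw [hf]; exact if_pos rfl
  have fv : f P.v = t := by
    rw [hf]
    simp only [if_neg (Ne.symm hwv), if_true]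
  have fl : f P.l = Sum.inl i := by
    rw [hf]
    simp only [if_neg (Ne.symm hO.wl), if_neg (Ne.symm hvl), if_true]
  have flf : ∀ x ∈ lf P.H P.w, f x = Sum.inl (π x) := by
    intro x hx
    have h1 : x ≠ P.w := by
      rintro rfl
      exact P.w_notlf hx
    have h2 : x ≠ P.v := by
      rintro rfl
      exact hvlf hx
    have h3 : x ≠ P.l := by
      rintro rfl
      exact hllf hx
    rw [hf]
    simp only [if_neg h1, if_neg h2, if_neg h3, if_pos hx]
  have fY : ∀ x, P.isY x → f x = Sum.inr (Core.pet j b x) := by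
    intro x hx
    rw [hf]
    simp only [if_neg hx.1, if_neg hx.2.1, if_neg hx.2.2.1, if_neg hx.2.2.2]
  have kinds : ∀ x, x = P.w ∨ x = P.v ∨ x = P.l ∨ x ∈ lf P.H P.w ∨ P.isY x := by
    intro x
    by_cases h1 : x = P.w
    · exact Or.inl h1
    · by_cases h2 : x = P.v
      · exact Or.inr (Or.inl h2)
      · by_cases h3 : x = P.l
        · exact Or.inr (Or.inr (Or.inl h3))
        · by_cases h4 : x ∈ lf P.H P.w
          · exact Or.inr (Or.inr (Or.inr (Or.inl h4)))
          · exact Or.inr (Or.inr (Or.inr (Or.inr ⟨h1, h2, h3, h4⟩)))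
  have hinj : Function.Injective f := by
    intro x y h
    rcases kinds x with hx | hx | hx | hx | hx <;> rcases kinds y with hy | hy | hy | hy | hy
    · rw [hx, hy]
    · rw [hx, hy, fw, fv] at h; exact absurd h.symm ht2
    · rw [hx, hy, fw, fl] at h; cases h
    · rw [hx, fw, flf y hy] at h; cases h
    · rw [hx, fw, fY y hy] at h; cases h
    · rw [hx, hy, fw, fv] at h; exact absurd h ht2
    · rw [hx, hy]
    · rw [hx, hy, fv, fl] at h; exact absurd h hti
    · rw [hx, fv, flf y hy] at h; exact absurd h (htl _)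
    · rw [hx, fv, fY y hy] at h; exact absurd h (hbt _ _)
    · rw [hx, hy, fw, fl] at h; cases h
    · rw [hx, hy, fv, fl] at h; exact absurd h.symm hti
    · rw [hx, hy]
    · rw [hx, fl, flf y hy] at h; exact absurd (Sum.inl.inj h).symm (hπ2 y).1
    · rw [hx, fl, fY y hy] at h; cases h
    · rw [hy, fw, flf x hx] at h; cases h
    · rw [hy, fv, flf x hx] at h; exact absurd h.symm (htl _)
    · rw [hy, fl, flf x hx] at h; exact absurd (Sum.inl.inj h) (hπ2 x).1
    · rw [flf x hx, flf y hy] at h; exact hπ (Sum.inl.inj h)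
    · rw [flf x hx, fY y hy] at h; cases h
    · rw [hy, fw, fY x hx] at h; cases h
    · rw [hy, fv, fY x hx] at h; exact absurd h.symm (hbt _ _)
    · rw [hy, fl, fY x hx] at h; cases h
    · rw [flf y hy, fY x hx] at h; cases h
    · rw [fY x hx, fY y hy] at h
      have := Sum.inr.inj h
      rw [Core.pet.injEq] at this
      exact this.2.2
  have hYwv : ∀ y, P.isY y → s(P.w, y) ≠ s(P.w, P.v) := by
    intro y hy h
    rw [Sym2.congr_right] at h
    exact hy.2.1 h
  have hYYwv : ∀ y y', P.isY y → P.isY y' → s(y, y') ≠ s(P.w, P.v) := by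
    intro y y' hy hy' h
    rw [Sym2.eq_iff] at h
    rcases h with ⟨h, _⟩ | ⟨h, _⟩
    · exact hy.1 h
    · exact hy.2.1 h
  rw [← ht]
  refine P.mkRb2 (f := f) (a0 := P.l) (b0 := P.v) (Ne.symm hti) hinj fl fv
    (fun e n => (e = s(P.l, P.v) ∧ n = big k + i) ∨ (e = s(P.w, P.v) ∧ n = P.hcol j0 y0) ∨
      (∃ x ∈ lf P.H P.w, e = s(P.w, x) ∧ n = big k + π x) ∨
      (e ≠ s(P.w, P.v) ∧ n = P.col j e)) (Or.inl ⟨rfl, rfl⟩) ?_ ?_
  · intro e he hne
    rcases P.classify hO he with h | h | ⟨x, hx, h⟩ | ⟨y, hy, hwy, h⟩ | ⟨y, y', hy, hy', hyy, h⟩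
    · refine ⟨P.w, P.v, h, ?_⟩
      rw [fw, fv, ht]
      exact ⟨hyN, Or.inr (Or.inl ⟨h, rfl⟩)⟩
    · rw [Sym2.eq_swap] at h
      exact absurd h hne
    · refine ⟨P.w, x, h, ?_⟩
      rw [fw, flf x hx]
      exact ⟨rfl, Or.inr (Or.inr (Or.inl ⟨x, hx, h, rfl⟩))⟩
    · refine ⟨P.w, y, h, ?_⟩
      rw [fw, fY y hy]
      refine ⟨P.isN_of hy hwy, Or.inr (Or.inr (Or.inr ⟨?_, ?_⟩))⟩
      · rw [h]
        exact hYwv y hy
      · rw [h]
        exact if_pos hwy
    · refine ⟨y, y', h, ?_⟩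
      rw [fY y hy, fY y' hy']
      refine ⟨⟨rfl, rfl, hy, hy', hyy⟩, Or.inr (Or.inr (Or.inr ⟨?_, ?_⟩))⟩
      · rw [h]
        exact hYYwv y y' hy hy'
      · rw [h]
        exact if_pos rfl
  · have hlt := P.hcol_lt j0 y0
    rintro e e' n (⟨h1, h2⟩ | ⟨h1, h2⟩ | ⟨x, hx, h1, h2⟩ | ⟨h1, h2⟩)
      (⟨h3, h4⟩ | ⟨h3, h4⟩ | ⟨y, hy, h3, h4⟩ | ⟨h3, h4⟩)
    · rw [h1, h3]
    · omega
    · exfalso
      apply (hπ2 y).1
      apply Fin.ext
      omega
    · have := P.col_lt j e'
      omega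
    · omega
    · rw [h1, h3]
    · omega
    · exact absurd (h4.symm.trans h2) (hj e' h3)
    · exfalso
      apply (hπ2 x).1
      apply Fin.ext
      omega
    · omega
    · have h5 : π x = π y := by
        apply Fin.ext
        omega
      rw [h1, h3, hπ h5]
    · have := P.col_lt j e'
      omega
    · have := P.col_lt j e
      omega
    · exact absurd (h2.symm.trans h4) (hj e h1)
    · have := P.col_lt j e
      omega
    · exact P.col_inj h1 h3 (h2.symm.trans h4)

/-- all missing edges at pendant vertices are saturated -/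
theorem sat_pend2 (hO : P.Ok) {m : ℕ} (hm : k + 3 ≤ m) (i : Fin m) (t : Fin m ⊕ Core k)
    (ht : Sum.inl i ≠ t) (hadj : ¬ (P.G2 m).Adj (Sum.inl i) t) (c : ℕ) :
    Rb P.H (P.G2 m ⊔ fromEdgeSet {s(Sum.inl i, t)})
      (Function.update (P.chi2 m) s(Sum.inl i, t) c) := by
  have ht2 : t ≠ Sum.inr Core.hub := by
    rintro rfl
    exact hadj rfl
  by_cases hc : c = big k + i
  · rcases t with i' | t
    · have hii : i ≠ i' := fun h => ht (by rw [h])
      have h1 := P.satA2 hO hm i' (Sum.inl i) (fun h => hii (Sum.inl.inj h)) (by simp) (c := c)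
        (by
          intro h
          apply hii
          apply Fin.ext
          omega)
      rw [Sym2.eq_swap]
      exact h1
    · subst hc
      cases t with
      | hub => exact absurd rfl ht2
      | pet j b y =>
        by_cases hy : P.isN y
        · exact P.satD hO hm i j b y hy
        · exact P.satB2 hO i j b y hy
      | cube s => exact P.satC2 hO i s
  · exact P.satA2 hO hm i t (Ne.symm ht) ht2 hc

/-- from the construction to the bound -/
theorem good2 (hO : P.Ok) {m : ℕ} (hm : k + 3 ≤ m)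
    (hfree : ¬ Rb P.H (P.G2 m) (P.chi2 m)) :
    Good P.H (m + Fintype.card (Core k)) (m + Fintype.card (Sym2 (Core k))) := by
  classical
  let F : Set (Sym2 (Fin m ⊕ Core k)) :=
    Set.range (fun e : Sym2 (Core k) => e.map (Sum.inr : Core k → Fin m ⊕ Core k))
  obtain ⟨G', χ', h1, h2⟩ := complete (H := P.H) hfree F (by
    intro x y hxy hadj hF col
    rcases x with i | c
    · exact P.sat_pend2 hO hm i y hxy hadj col
    · rcases y with i | c'
      · have h3 := P.sat_pend2 hO hm i (Sum.inr c) (Ne.symm hxy) (fun h => hadj h.symm) col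
        rw [Sym2.eq_swap]
        exact h3
      · exact absurd ⟨s(c, c'), rfl⟩ hF)
  have h3 : G'.edgeSet ⊆ Set.range (fun i : Fin m =>
      (s(Sum.inl i, Sum.inr Core.hub) : Sym2 (Fin m ⊕ Core k))) ∪ F := by
    intro e he
    rcases h1 he with h4 | h4
    · induction e using Sym2.ind with
      | h x y =>
        have h5 : (P.G2 m).Adj x y := h4
        rcases x with i | c <;> rcases y with i' | c'
        · exact absurd h5 id
        · have h6 : c' = Core.hub := h5
          rw [h6]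
          exact Or.inl ⟨i, rfl⟩
        · have h6 : c = Core.hub := h5
          rw [h6, Sym2.eq_swap]
          exact Or.inl ⟨i', rfl⟩
        · exact Or.inr ⟨s(c, c'), rfl⟩
    · exact Or.inr h4
  have h4 : G'.edgeSet.ncard ≤ m + Fintype.card (Sym2 (Core k)) := by
    refine (Set.ncard_le_ncard h3 (Set.toFinite _)).trans ((Set.ncard_union_le _ _).trans ?_)
    refine Nat.add_le_add ?_ ?_
    · rw [← Set.image_univ]
      refine (Set.ncard_image_le (Set.toFinite _)).trans ?_
      rw [Set.ncard_univ, Nat.card_eq_fintype_card, Fintype.card_fin]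
    · show (Set.range _).ncard ≤ _
      rw [← Set.image_univ]
      refine (Set.ncard_image_le (Set.toFinite _)).trans ?_
      rw [Set.ncard_univ, Nat.card_eq_fintype_card]
  have h7 : Fintype.card (Fin m ⊕ Core k) = m + Fintype.card (Core k) := by
    rw [Fintype.card_sum, Fintype.card_fin]
  have h8 := h2.good
  rw [h7] at h8
  obtain ⟨G2, χ2, h5, h6⟩ := h8
  exact ⟨G2, χ2, h5.trans h4, h6⟩

end Pat

end Pool.Agent.Helper3.RT
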